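import Mathlib

/-!
# Integer algebra of pairs of near-solutions
-/

namespace Pool.Agent.Helper52.Hall

/-- `A = 0` forces `q ∣ 4 G`. -/
lemma alg_B {q a DN Dk Ds Dw : ℤ} (_hq : 0 < q) (hc : IsCoprime a q)
    (hA : q ^ 3 * Dw - 4 * a * q ^ 2 * Ds + 6 * a ^ 2 * q * Dk - 4 * a ^ 3 * DN = 0) :
    ∃ B : ℤ, 4 * (q ^ 2 * Ds - 3 * a * q * Dk + 3 * a ^ 2 * DN) = q * B := by
  have h1 : q ∣ a ^ 3 * (4 * DN) :=
    ⟨q ^ 2 * Dw - 4 * a * q * Ds + 6 * a ^ 2 * Dk, by linear_combination -hA⟩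
  have h2 : IsCoprime q (a ^ 3) := (hc.symm).pow_right
  obtain ⟨n, hn⟩ := h2.dvd_of_dvd_mul_left h1
  exact ⟨4 * q * Ds - 12 * a * Dk + 3 * a ^ 2 * n, by linear_combination 3 * a ^ 2 * hn⟩

/-- `A = G = 0` forces `q ^ 2 ∣ 6 E`. -/
lemma alg_C {q a DN Dk Ds Dw : ℤ} (_hq : 0 < q) (hc : IsCoprime a q)
    (hA : q ^ 3 * Dw - 4 * a * q ^ 2 * Ds + 6 * a ^ 2 * q * Dk - 4 * a ^ 3 * DN = 0)
    (hG : q ^ 2 * Ds - 3 * a * q * Dk + 3 * a ^ 2 * DN = 0) :
    ∃ m C : ℤ, 2 * DN = q ^ 2 * m ∧ 6 * (q * Dk - 2 * a * DN) = q ^ 2 * C := by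
  have hq2 : IsCoprime (q ^ 2) a := (hc.symm).pow_left
  have h1 : q ^ 2 ∣ a ^ 3 * (2 * DN) :=
    ⟨2 * a * Ds - q * Dw, by linear_combination hA + 2 * a * hG⟩
  obtain ⟨m, hm⟩ := (hq2.pow_right (n := 3)).dvd_of_dvd_mul_left h1
  have h2 : q ^ 2 ∣ a * (6 * (q * Dk - 2 * a * DN)) :=
    ⟨2 * Ds - 3 * a ^ 2 * m, by linear_combination (-2) * hG - 3 * a ^ 2 * hm⟩
  obtain ⟨C, hC⟩ := hq2.dvd_of_dvd_mul_left h2
  exact ⟨m, C, hm, hC⟩

/-- `A = G = E = 0` together with the two exact relations leaves no freedom unless `q = 1`. -/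
lemma alg_D {q a N k s w N' k' s' w' : ℤ} (hq : 0 < q) (hc : IsCoprime a q)
    (hw : w = 3 * k ^ 2 - 4 * N * s) (hw' : w' = 3 * k' ^ 2 - 4 * N' * s')
    (hA : q ^ 3 * (w - w') - 4 * a * q ^ 2 * (s - s') + 6 * a ^ 2 * q * (k - k')
      - 4 * a ^ 3 * (N - N') = 0)
    (hG : q ^ 2 * (s - s') - 3 * a * q * (k - k') + 3 * a ^ 2 * (N - N') = 0)
    (hE : q * (k - k') - 2 * a * (N - N') = 0) :
    (N = N' ∧ k = k') ∨ (q = 1 ∧ (a = 0 → s' = 0)) := by
  obtain ⟨m, C, hm, hC⟩ := alg_C hq hc hA hG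
  by_cases h0 : m = 0
  · left
    subst h0
    have hN : N = N' := by linarith
    refine ⟨hN, ?_⟩
    have h3 : q * (k - k') = 0 := by rw [hN] at hE; linarith
    rcases mul_eq_zero.1 h3 with h | h
    · omega
    · linarith
  · right
    have hk : k - k' = a * q * m := by
      have : q * (k - k') = q * (a * q * m) := by linear_combination hE + a * hm
      exact mul_left_cancel₀ hq.ne' this
    have hs : 2 * (s - s') = 3 * a ^ 2 * m := by
      have : q ^ 2 * (2 * (s - s')) = q ^ 2 * (3 * a ^ 2 * m) := by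
        linear_combination 2 * hG + 6 * a * q * hk - 3 * a ^ 2 * hm
      exact mul_left_cancel₀ (pow_ne_zero 2 hq.ne') this
    have hww : q * (w - w') = 2 * a ^ 3 * m := by
      have : q ^ 2 * (q * (w - w')) = q ^ 2 * (2 * a ^ 3 * m) := by
        linear_combination hA + 2 * a * q ^ 2 * hs - 6 * a ^ 2 * q * hk + 2 * a ^ 3 * hm
      exact mul_left_cancel₀ (pow_ne_zero 2 hq.ne') this
    have key : a ^ 3 = q * (3 * a * q * k' - 3 * a ^ 2 * N' - q ^ 2 * s') := by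
      have hk2 : k = k' + a * q * m := by linarith
      have : (2 * m) * a ^ 3 = (2 * m) * (q * (3 * a * q * k' - 3 * a ^ 2 * N' - q ^ 2 * s')) := by
        subst hw hw' hk2
        linear_combination -hww + (-2 * q * N' - q ^ 3 * m) * hs
          + (-2 * q * s' - 2 * q * (s - s')) * hm
      exact mul_left_cancel₀ (mul_ne_zero two_ne_zero h0) this
    have hdiv : q ∣ a ^ 3 := ⟨_, key⟩
    have hq1 : IsUnit q := (hc.pow_left (m := 3)).isUnit_of_dvd' hdiv dvd_rfl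
    have hq1' : q = 1 := by
      rcases Int.isUnit_iff.1 hq1 with h | h
      · exact h
      · omega
    refine ⟨hq1', fun ha => ?_⟩
    subst hq1' ha
    linarith

end Pool.Agent.Helper52.Hall
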