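import Pool.Agent.Helper52.Hall.PairLemma

/-!
# Counting near-solutions at one scale
-/

namespace Pool.Agent.Helper52.Hall

open Finset

lemma card_le_sum {ι α : Type*} [DecidableEq α] {S : Finset α} {t : Finset ι} {f : ι → Finset α}
    {F : ι → ℝ} (h : ∀ x ∈ S, ∃ i ∈ t, x ∈ f i) (hF : ∀ i ∈ t, ((f i).card : ℝ) ≤ F i) :
    (S.card : ℝ) ≤ ∑ i ∈ t, F i := by
  have h1 : S ⊆ t.biUnion f := by
    intro x hx
    obtain ⟨i, hi, hxi⟩ := h x hx
    exact mem_biUnion.2 ⟨i, hi, hxi⟩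
  have h2 : S.card ≤ ∑ i ∈ t, (f i).card := (card_le_card h1).trans card_biUnion_le
  calc (S.card : ℝ) ≤ ((∑ i ∈ t, (f i).card : ℕ) : ℝ) := by exact_mod_cast h2
    _ = ∑ i ∈ t, ((f i).card : ℝ) := by push_cast; rfl
    _ ≤ ∑ i ∈ t, F i := sum_le_sum hF

/-- the bound for the number of elements in a cell -/
noncomputable def fb (T q : ℕ) (j : ℤ) : ℝ :=
  105 + 262144 * ((T : ℝ) / q) / ((jabs j : ℝ) + 1) ^ 2

/-- Fibre bound. -/
lemma fibre {K : ℝ} {T q : ℕ} {a j b i : ℤ} (yy : ℕ → ℤ) (S : Finset ℕ)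
    (hS : ∀ x ∈ S, Scale K T x ∧ IsNear K x (yy x) ∧ Cell T q a j b i x (yy x)) :
    (S.card : ℝ) ≤ fb T q j := by
  rcases S.eq_empty_or_nonempty with rfl | ⟨x₀, hx₀⟩
  · rw [card_empty, Nat.cast_zero]
    unfold fb
    positivity
  set E : ℕ → ℤ := fun x => q * kk x - 2 * a * NN x with hE
  set g : ℕ → ℤ := fun x => 6 * (E x - E x₀) / (q : ℤ) ^ 2 with hg
  set B : ℝ := 52 + 131072 * ((T : ℝ) / q) / ((jabs j : ℝ) + 1) ^ 2 with hB
  have hB0 : 0 ≤ B := by positivity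
  obtain ⟨-, -, c₀⟩ := hS x₀ hx₀
  have hq : (0 : ℤ) < (q : ℤ) ^ 2 := by
    have : (0 : ℤ) < q := by exact_mod_cast c₀.q1
    positivity
  have key : ∀ x ∈ S, 6 * (E x - E x₀) = (q : ℤ) ^ 2 * g x ∧ |(g x : ℝ)| ≤ B := by
    intro x hx
    by_cases hxx : x = x₀
    · subst hxx
      simp [hg, hB0]
    · obtain ⟨s₁, n₁, c₁⟩ := hS x hx
      obtain ⟨s₂, n₂, c₂⟩ := hS x₀ hx₀
      obtain ⟨C, -, h1, h2⟩ := pair_main s₁ s₂ n₁ n₂ c₁ c₂ hxx
      have h1' : 6 * (E x - E x₀) = (q : ℤ) ^ 2 * C := h1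
      have h3 : g x = C := by
        rw [hg]
        simp only
        rw [h1', Int.mul_ediv_cancel_left _ hq.ne']
      rw [h3]
      exact ⟨h1', h2⟩
  have hinj : Set.InjOn g S := by
    intro x hx x' hx' hxx
    by_contra hne
    obtain ⟨s₁, n₁, c₁⟩ := hS x hx
    obtain ⟨s₂, n₂, c₂⟩ := hS x' hx'
    obtain ⟨C, hC0, h1, -⟩ := pair_main s₁ s₂ n₁ n₂ c₁ c₂ hne
    have h1' : 6 * (E x - E x') = (q : ℤ) ^ 2 * C := h1
    have h2 := (key x hx).1
    have h3 := (key x' hx').1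
    have h4 : (q : ℤ) ^ 2 * C = 0 := by
      have hxx' : g x = g x' := hxx
      rw [hxx'] at h2
      linarith
    rcases mul_eq_zero.1 h4 with h | h
    · exact hq.ne' h
    · exact hC0 h
  have hmaps : Set.MapsTo g S (Icc (-⌊B⌋) ⌊B⌋ : Finset ℤ) := by
    intro x hx
    have h := abs_le.1 (key x hx).2
    rw [coe_Icc, Set.mem_Icc]
    constructor
    · rw [neg_le]
      apply Int.le_floor.2
      push_cast
      linarith
    · exact Int.le_floor.2 h.2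
  have hcard := card_le_card_of_injOn g hmaps hinj
  rw [Int.card_Icc] at hcard
  have hfl : 0 ≤ ⌊B⌋ := Int.floor_nonneg.2 hB0
  have h1 : (S.card : ℤ) ≤ 2 * ⌊B⌋ + 1 := by omega
  have h2 : (S.card : ℝ) ≤ 2 * (⌊B⌋ : ℝ) + 1 := by exact_mod_cast h1
  have h3 := Int.floor_le B
  unfold fb
  have : 2 * B + 1 = 105 + 262144 * ((T : ℝ) / q) / ((jabs j : ℝ) + 1) ^ 2 := by
    rw [hB]
    ring
  linarith

lemma sum_sq (m : ℕ) : ∑ n ∈ range (m + 1), 1 / ((n : ℝ) + 1) ^ 2 ≤ 2 - 1 / ((m : ℝ) + 1) := by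
  induction m with
  | zero => norm_num
  | succ m ih =>
    rw [sum_range_succ]
    have h : 1 / (((m + 1 : ℕ) : ℝ) + 1) ^ 2 ≤ 1 / ((m : ℝ) + 1) - 1 / (((m + 1 : ℕ) : ℝ) + 1) := by
      push_cast
      rw [div_sub_div _ _ (by positivity) (by positivity), div_le_div_iff₀ (by positivity)
        (by positivity)]
      nlinarith [sq_nonneg (m : ℝ), (Nat.cast_nonneg m : (0 : ℝ) ≤ m)]
    linarith

lemma jabs_sum (J : ℕ) :
    ∑ j ∈ Icc (-(J : ℤ)) J, 1 / ((jabs j : ℝ) + 1) ^ 2 ≤ 4 := by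
  classical
  have hle : ∑ n ∈ range (J + 1), 1 / ((n : ℝ) + 1) ^ 2 ≤ 2 := by
    have h := sum_sq J
    have : 0 ≤ 1 / ((J : ℝ) + 1) := by positivity
    linarith
  rw [← sum_filter_add_sum_filter_not (Icc (-(J : ℤ)) J) (fun j => 0 ≤ j)]
  have h1 : ∑ j ∈ (Icc (-(J : ℤ)) J).filter (fun j => 0 ≤ j), 1 / ((jabs j : ℝ) + 1) ^ 2 ≤
      ∑ n ∈ range (J + 1), 1 / ((n : ℝ) + 1) ^ 2 := by
    rw [← sum_image (g := jabs) (f := fun n : ℕ => 1 / ((n : ℝ) + 1) ^ 2)]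
    · apply sum_le_sum_of_subset_of_nonneg
      · intro n hn
        obtain ⟨j, hj, rfl⟩ := mem_image.1 hn
        rw [mem_filter, mem_Icc] at hj
        rw [mem_range]
        unfold jabs
        rw [if_pos hj.2]
        omega
      · intros
        positivity
    · intro x hx y hy hxy
      simp only [coe_filter, Set.mem_ofPred_eq] at hx hy
      unfold jabs at hxy
      rw [if_pos hx.2, if_pos hy.2] at hxy
      omega
  have h2 : ∑ j ∈ (Icc (-(J : ℤ)) J).filter (fun j => ¬ 0 ≤ j), 1 / ((jabs j : ℝ) + 1) ^ 2 ≤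
      ∑ n ∈ range (J + 1), 1 / ((n : ℝ) + 1) ^ 2 := by
    rw [← sum_image (g := jabs) (f := fun n : ℕ => 1 / ((n : ℝ) + 1) ^ 2)]
    · apply sum_le_sum_of_subset_of_nonneg
      · intro n hn
        obtain ⟨j, hj, rfl⟩ := mem_image.1 hn
        rw [mem_filter, mem_Icc] at hj
        rw [mem_range]
        unfold jabs
        rw [if_neg hj.2]
        omega
      · intros
        positivity
    · intro x hx y hy hxy
      simp only [coe_filter, Set.mem_ofPred_eq] at hx hy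
      unfold jabs at hxy
      rw [if_neg hx.2, if_neg hy.2] at hxy
      omega
  linarith

/-- Sum of the cell bounds over `j`. -/
lemma fb_sum {T q J : ℕ} (hq : 1 ≤ q) (hqT : q ≤ T) (hJ : (J : ℝ) ≤ 4098 * ((T : ℝ) / q)) :
    ∑ j ∈ Icc (-(J : ℤ)) J, fb T q j ≤ 2000000 * ((T : ℝ) / q) := by
  have hq0 : (0 : ℝ) < q := by exact_mod_cast hq
  have h1 : (1 : ℝ) ≤ (T : ℝ) / q := by
    rw [le_div_iff₀ hq0, one_mul]
    exact_mod_cast hqT
  unfold fb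
  rw [sum_add_distrib, sum_const, Int.card_Icc]
  have h2 : ((J : ℤ) + 1 - -(J : ℤ)).toNat = 2 * J + 1 := by omega
  rw [h2]
  have h3 : ∑ j ∈ Icc (-(J : ℤ)) J, 262144 * ((T : ℝ) / q) / ((jabs j : ℝ) + 1) ^ 2 ≤
      262144 * ((T : ℝ) / q) * 4 := by
    have : ∑ j ∈ Icc (-(J : ℤ)) J, 262144 * ((T : ℝ) / q) / ((jabs j : ℝ) + 1) ^ 2 =
        262144 * ((T : ℝ) / q) * ∑ j ∈ Icc (-(J : ℤ)) J, 1 / ((jabs j : ℝ) + 1) ^ 2 := by
      rw [mul_sum]
      exact sum_congr rfl fun j _ => by ring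
    rw [this]
    have := jabs_sum J
    gcongr
  rw [nsmul_eq_mul]
  push_cast
  linarith

end Pool.Agent.Helper52.Hall
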