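import Mathlib

/-!
# Dimensionless inequalities for pairs of near-solutions
-/

namespace Pool.Agent.Helper52.Hall

/-- The standing assumptions on a pair of (rescaled) near-solutions. -/
structure Pair (Q r δ v₁ v₂ a₁ a₂ o₁ o₂ e₁ e₂ : ℝ) : Prop where
  Q0 : 0 < Q
  Q1 : Q ≤ 1
  Qr : Q * r = 1
  d0 : 0 ≤ δ
  d1 : δ ≤ Q ^ 5
  v1l : 1 / 2 ≤ v₁
  v1u : v₁ ≤ 9
  v2l : 1 / 2 ≤ v₂
  v2u : v₂ ≤ 9
  vv : |v₁ - v₂| ≤ 1 / 16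
  a1 : |a₁| ≤ r
  a2 : |a₂| ≤ r
  aa : |a₁ - a₂| ≤ 1 / 4096
  oo : |o₁ - o₂| ≤ 1 / 8192
  e1 : |e₁| ≤ Q ^ 2 / 60
  e2 : |e₂| ≤ Q ^ 2 / 60

lemma cube_sub {x y c m : ℝ} (hx : |x| ≤ m) (hy : |y| ≤ m) (h : |x - y| ≤ c) :
    |x ^ 3 - y ^ 3| ≤ 3 * m ^ 2 * c := by
  have hm : 0 ≤ m := (abs_nonneg x).trans hx
  have h1 : x ^ 3 - y ^ 3 = (x - y) * (x ^ 2 + x * y + y ^ 2) := by ring
  rw [h1, abs_mul]
  have h2 : |x ^ 2 + x * y + y ^ 2| ≤ 3 * m ^ 2 := by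
    have e1 : |x ^ 2| ≤ m ^ 2 := by rw [abs_pow]; gcongr
    have e2 : |x * y| ≤ m * m := by rw [abs_mul]; gcongr
    have e3 : |y ^ 2| ≤ m ^ 2 := by rw [abs_pow]; gcongr
    calc |x ^ 2 + x * y + y ^ 2| ≤ |x ^ 2| + |x * y| + |y ^ 2| := abs_add_three _ _ _
      _ ≤ m ^ 2 + m * m + m ^ 2 := by gcongr
      _ = 3 * m ^ 2 := by ring
  calc |x - y| * |x ^ 2 + x * y + y ^ 2| ≤ c * (3 * m ^ 2) := by
        gcongr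
        exact (abs_nonneg _).trans h
    _ = 3 * m ^ 2 * c := by ring

lemma four_sub {x y c m : ℝ} (hx : |x| ≤ m) (hy : |y| ≤ m) (h : |x - y| ≤ c) :
    |x ^ 4 - y ^ 4| ≤ 4 * m ^ 3 * c := by
  have hm : 0 ≤ m := (abs_nonneg x).trans hx
  have h1 : x ^ 4 - y ^ 4 = (x - y) * ((x + y) * (x ^ 2 + y ^ 2)) := by ring
  rw [h1, abs_mul]
  have h2 : |(x + y) * (x ^ 2 + y ^ 2)| ≤ 4 * m ^ 3 := by
    rw [abs_mul]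
    have e1 : |x + y| ≤ 2 * m := (abs_add_le _ _).trans (by linarith)
    have e2 : |x ^ 2 + y ^ 2| ≤ 2 * m ^ 2 := by
      have e1 : |x ^ 2| ≤ m ^ 2 := by rw [abs_pow]; gcongr
      have e3 : |y ^ 2| ≤ m ^ 2 := by rw [abs_pow]; gcongr
      exact (abs_add_le _ _).trans (by linarith)
    calc |x + y| * |x ^ 2 + y ^ 2| ≤ 2 * m * (2 * m ^ 2) := by gcongr
      _ = 4 * m ^ 3 := by ring
  calc |x - y| * |(x + y) * (x ^ 2 + y ^ 2)| ≤ c * (4 * m ^ 3) := by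
        gcongr
        exact (abs_nonneg _).trans h
    _ = 4 * m ^ 3 * c := by ring

lemma sq_sub {x y c m : ℝ} (hx : |x| ≤ m) (hy : |y| ≤ m) (h : |x - y| ≤ c) :
    |x ^ 2 - y ^ 2| ≤ 2 * m * c := by
  have hm : 0 ≤ m := (abs_nonneg x).trans hx
  have h1 : x ^ 2 - y ^ 2 = (x - y) * (x + y) := by ring
  rw [h1, abs_mul]
  have e1 : |x + y| ≤ 2 * m := (abs_add_le _ _).trans (by linarith)
  calc |x - y| * |x + y| ≤ c * (2 * m) := by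
        gcongr
        exact (abs_nonneg _).trans h
    _ = 2 * m * c := by ring

variable {Q r δ v₁ v₂ a₁ a₂ o₁ o₂ e₁ e₂ : ℝ}

lemma Pair.r0 (P : Pair Q r δ v₁ v₂ a₁ a₂ o₁ o₂ e₁ e₂) : 0 < r := by
  have := P.Qr
  have h0 := P.Q0
  by_contra h
  push Not at h
  nlinarith

lemma Pair.A_bound (P : Pair Q r δ v₁ v₂ a₁ a₂ o₁ o₂ e₁ e₂) :
    |Q ^ 3 * (4 * (v₁ * a₁ ^ 3 - v₂ * a₂ ^ 3) + 3 * δ * (a₁ ^ 4 - a₂ ^ 4) - 8 * (o₁ - o₂))| < 1 := by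
  have hr := P.r0
  have Q0 := P.Q0
  have Q1 := P.Q1
  have Qr := P.Qr
  have h3 := cube_sub P.a1 P.a2 P.aa
  have h4 := four_sub P.a1 P.a2 P.aa
  have hv : |v₁ * a₁ ^ 3 - v₂ * a₂ ^ 3| ≤ 1 / 16 * r ^ 3 + 9 * (3 * r ^ 2 * (1 / 4096)) := by
    have e : v₁ * a₁ ^ 3 - v₂ * a₂ ^ 3 = (v₁ - v₂) * a₁ ^ 3 + v₂ * (a₁ ^ 3 - a₂ ^ 3) := by ring
    have e1 : |a₁ ^ 3| ≤ r ^ 3 := by
      rw [abs_pow]
      exact pow_le_pow_left₀ (abs_nonneg _) P.a1 3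
    have e2 : |v₂| ≤ 9 := by
      rw [abs_le]; constructor <;> linarith [P.v2l, P.v2u]
    calc |v₁ * a₁ ^ 3 - v₂ * a₂ ^ 3| ≤ |(v₁ - v₂) * a₁ ^ 3| + |v₂ * (a₁ ^ 3 - a₂ ^ 3)| := by
          rw [e]; exact abs_add_le _ _
      _ = |v₁ - v₂| * |a₁ ^ 3| + |v₂| * |a₁ ^ 3 - a₂ ^ 3| := by rw [abs_mul, abs_mul]
      _ ≤ 1 / 16 * r ^ 3 + 9 * (3 * r ^ 2 * (1 / 4096)) := by
          have := P.vv
          gcongr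
  have h8 := P.oo
  rw [abs_mul, abs_of_pos (pow_pos Q0 3)]
  have key : |4 * (v₁ * a₁ ^ 3 - v₂ * a₂ ^ 3) + 3 * δ * (a₁ ^ 4 - a₂ ^ 4) - 8 * (o₁ - o₂)| ≤
      4 * (1 / 16 * r ^ 3 + 9 * (3 * r ^ 2 * (1 / 4096))) + 3 * Q ^ 5 * (4 * r ^ 3 * (1 / 4096))
        + 8 * (1 / 8192) := by
    calc |4 * (v₁ * a₁ ^ 3 - v₂ * a₂ ^ 3) + 3 * δ * (a₁ ^ 4 - a₂ ^ 4) - 8 * (o₁ - o₂)| ≤
        |4 * (v₁ * a₁ ^ 3 - v₂ * a₂ ^ 3) + 3 * δ * (a₁ ^ 4 - a₂ ^ 4)| + |8 * (o₁ - o₂)| :=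
          abs_sub _ _
      _ ≤ |4 * (v₁ * a₁ ^ 3 - v₂ * a₂ ^ 3)| + |3 * δ * (a₁ ^ 4 - a₂ ^ 4)| + |8 * (o₁ - o₂)| := by
          gcongr
          exact abs_add_le _ _
      _ = 4 * |v₁ * a₁ ^ 3 - v₂ * a₂ ^ 3| + 3 * δ * |a₁ ^ 4 - a₂ ^ 4| + 8 * |o₁ - o₂| := by
          simp only [abs_mul, abs_of_nonneg P.d0]
          norm_num
      _ ≤ _ := by
          have := P.d1
          have := P.d0
          gcongr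
  calc Q ^ 3 * |4 * (v₁ * a₁ ^ 3 - v₂ * a₂ ^ 3) + 3 * δ * (a₁ ^ 4 - a₂ ^ 4) - 8 * (o₁ - o₂)|
      ≤ Q ^ 3 * (4 * (1 / 16 * r ^ 3 + 9 * (3 * r ^ 2 * (1 / 4096)))
        + 3 * Q ^ 5 * (4 * r ^ 3 * (1 / 4096)) + 8 * (1 / 8192)) := by gcongr
    _ = (Q * r) ^ 3 / 4 + 108 / 4096 * Q * (Q * r) ^ 2 + 12 / 4096 * Q ^ 5 * (Q * r) ^ 3
        + 8 / 8192 * Q ^ 3 := by ring
    _ ≤ 1 / 4 + 108 / 4096 * 1 + 12 / 4096 * 1 + 8 / 8192 * 1 := by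
        rw [Qr]
        have e5 : Q ^ 5 ≤ 1 := pow_le_one₀ Q0.le Q1
        have e3 : Q ^ 3 ≤ 1 := pow_le_one₀ Q0.le Q1
        nlinarith
    _ < 1 := by norm_num

/-- the quantity controlling the second integer -/
noncomputable def Bq (δ v₁ v₂ a₁ a₂ e₁ e₂ : ℝ) : ℝ :=
  3 * (v₁ * a₁ ^ 2 - v₂ * a₂ ^ 2) + 2 * δ * (a₁ ^ 3 - a₂ ^ 3) + 2 * (e₁ - e₂)

/-- the quantity controlling the first integer -/
noncomputable def Aq (δ v₁ v₂ a₁ a₂ o₁ o₂ : ℝ) : ℝ :=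
  4 * (v₁ * a₁ ^ 3 - v₂ * a₂ ^ 3) + 3 * δ * (a₁ ^ 4 - a₂ ^ 4) - 8 * (o₁ - o₂)

/-- the quantity controlling the third integer -/
noncomputable def Cq (δ v₁ v₂ a₁ a₂ : ℝ) : ℝ :=
  2 * (v₁ * a₁ - v₂ * a₂) + δ * (a₁ ^ 2 - a₂ ^ 2)

lemma Pair.e12 (P : Pair Q r δ v₁ v₂ a₁ a₂ o₁ o₂ e₁ e₂) : |e₁ - e₂| ≤ Q ^ 2 / 30 := by
  have := P.e1
  have := P.e2
  calc |e₁ - e₂| ≤ |e₁| + |e₂| := abs_sub _ _
    _ ≤ Q ^ 2 / 30 := by linarith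

lemma Pair.large (P : Pair Q r δ v₁ v₂ a₁ a₂ o₁ o₂ e₁ e₂) (h1 : 1 / 64 ≤ |a₁|) :
    |a₂| ≤ 2 * |a₁| ∧ |a₁| ≤ 2 * |a₂| := by
  have h := P.aa
  have e1 : |a₂| ≤ |a₁| + 1 / 4096 := by
    have : |a₂| - |a₁| ≤ |a₂ - a₁| := abs_sub_abs_le_abs_sub _ _
    rw [abs_sub_comm] at this
    linarith
  have e2 : |a₁| ≤ |a₂| + 1 / 4096 := by
    have : |a₁| - |a₂| ≤ |a₁ - a₂| := abs_sub_abs_le_abs_sub _ _
    linarith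
  constructor <;> linarith

/-- bound on the difference of cubes when the first integer vanishes -/
lemma Pair.eps3 (P : Pair Q r δ v₁ v₂ a₁ a₂ o₁ o₂ e₁ e₂) (h1 : 1 / 64 ≤ |a₁|)
    (hA : Aq δ v₁ v₂ a₁ a₂ o₁ o₂ = 0) :
    |v₁ * a₁ ^ 3 - v₂ * a₂ ^ 3| ≤ 24 / 4096 * (δ * |a₁| ^ 3) + 1 / 4096 := by
  obtain ⟨h2, -⟩ := P.large h1
  have h4 : |a₁ ^ 4 - a₂ ^ 4| ≤ 4 * (2 * |a₁|) ^ 3 * (1 / 4096) :=
    four_sub (by linarith [abs_nonneg a₁]) h2 P.aa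
  have d0 := P.d0
  have e : v₁ * a₁ ^ 3 - v₂ * a₂ ^ 3 = -(3 / 4) * δ * (a₁ ^ 4 - a₂ ^ 4) + 2 * (o₁ - o₂) := by
    unfold Aq at hA
    linear_combination hA / 4
  rw [e]
  calc |-(3 / 4) * δ * (a₁ ^ 4 - a₂ ^ 4) + 2 * (o₁ - o₂)| ≤
      |-(3 / 4) * δ * (a₁ ^ 4 - a₂ ^ 4)| + |2 * (o₁ - o₂)| := abs_add_le _ _
    _ = 3 / 4 * δ * |a₁ ^ 4 - a₂ ^ 4| + 2 * |o₁ - o₂| := by
        simp only [abs_mul, abs_of_nonneg P.d0, abs_neg]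
        norm_num
    _ ≤ 3 / 4 * δ * (4 * (2 * |a₁|) ^ 3 * (1 / 4096)) + 2 * (1 / 8192) := by
        have := P.oo
        gcongr
    _ = 24 / 4096 * (δ * |a₁| ^ 3) + 1 / 4096 := by ring

/-- bound on the difference of squares when the second integer vanishes -/
lemma Pair.eps2 (P : Pair Q r δ v₁ v₂ a₁ a₂ o₁ o₂ e₁ e₂) (h1 : 1 / 64 ≤ |a₁|)
    (hB : Bq δ v₁ v₂ a₁ a₂ e₁ e₂ = 0) :
    |v₁ * a₁ ^ 2 - v₂ * a₂ ^ 2| ≤ 8 / 4096 * (δ * |a₁| ^ 2) + Q ^ 2 / 45 := by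
  obtain ⟨h2, -⟩ := P.large h1
  have h4 : |a₁ ^ 3 - a₂ ^ 3| ≤ 3 * (2 * |a₁|) ^ 2 * (1 / 4096) :=
    cube_sub (by linarith [abs_nonneg a₁]) h2 P.aa
  have d0 := P.d0
  have e : v₁ * a₁ ^ 2 - v₂ * a₂ ^ 2 = -(2 / 3) * δ * (a₁ ^ 3 - a₂ ^ 3) + -(2 / 3) * (e₁ - e₂) := by
    unfold Bq at hB
    linear_combination hB / 3
  rw [e]
  calc |-(2 / 3) * δ * (a₁ ^ 3 - a₂ ^ 3) + -(2 / 3) * (e₁ - e₂)| ≤
      |-(2 / 3) * δ * (a₁ ^ 3 - a₂ ^ 3)| + |-(2 / 3) * (e₁ - e₂)| := abs_add_le _ _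
    _ = 2 / 3 * δ * |a₁ ^ 3 - a₂ ^ 3| + 2 / 3 * |e₁ - e₂| := by
        simp only [abs_mul, abs_of_nonneg P.d0, abs_neg]
        norm_num
    _ ≤ 2 / 3 * δ * (3 * (2 * |a₁|) ^ 2 * (1 / 4096)) + 2 / 3 * (Q ^ 2 / 30) := by
        have := P.e12
        gcongr
    _ = 8 / 4096 * (δ * |a₁| ^ 2) + Q ^ 2 / 45 := by ring

lemma Pair.rest_B (P : Pair Q r δ v₁ v₂ a₁ a₂ o₁ o₂ e₁ e₂) :
    |2 * δ * (a₁ ^ 3 - a₂ ^ 3) + 2 * (e₁ - e₂)| ≤ 6 / 4096 * (δ * r ^ 2) + Q ^ 2 / 15 := by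
  have h3 := cube_sub P.a1 P.a2 P.aa
  have d0 := P.d0
  calc |2 * δ * (a₁ ^ 3 - a₂ ^ 3) + 2 * (e₁ - e₂)| ≤
      |2 * δ * (a₁ ^ 3 - a₂ ^ 3)| + |2 * (e₁ - e₂)| := abs_add_le _ _
    _ = 2 * δ * |a₁ ^ 3 - a₂ ^ 3| + 2 * |e₁ - e₂| := by
        simp only [abs_mul, abs_of_nonneg P.d0]
        norm_num
    _ ≤ 2 * δ * (3 * r ^ 2 * (1 / 4096)) + 2 * (Q ^ 2 / 30) := by
        have := P.e12
        gcongr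
    _ = 6 / 4096 * (δ * r ^ 2) + Q ^ 2 / 15 := by ring

/-- `Q δ r² ≤ 1` -/
lemma Pair.dr2 (P : Pair Q r δ v₁ v₂ a₁ a₂ o₁ o₂ e₁ e₂) : Q * (δ * r ^ 2) ≤ 1 := by
  have hr := P.r0
  have Q0 := P.Q0
  have Qr := P.Qr
  calc Q * (δ * r ^ 2) ≤ Q * (Q ^ 5 * r ^ 2) := by
        have := P.d1
        gcongr
    _ = (Q * r) ^ 2 * Q ^ 4 := by ring
    _ ≤ 1 := by
        rw [Qr]
        have e5 : Q ^ 4 ≤ 1 := pow_le_one₀ Q0.le P.Q1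
        linarith

lemma Pair.B_small (P : Pair Q r δ v₁ v₂ a₁ a₂ o₁ o₂ e₁ e₂) (h1 : |a₁| ≤ 1 / 32)
    (h2 : |a₂| ≤ 1 / 32) : |4 * Q * Bq δ v₁ v₂ a₁ a₂ e₁ e₂| < 1 := by
  have Q0 := P.Q0
  have hd : |v₁ * a₁ ^ 2 - v₂ * a₂ ^ 2| ≤ 9 / 1024 := by
    have b1 : a₁ ^ 2 ≤ 1 / 1024 := by
      have := pow_le_pow_left₀ (abs_nonneg _) h1 2
      rw [sq_abs] at this
      linarith
    have b2 : a₂ ^ 2 ≤ 1 / 1024 := by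
      have := pow_le_pow_left₀ (abs_nonneg _) h2 2
      rw [sq_abs] at this
      linarith
    have c1 : v₁ * a₁ ^ 2 ≤ 9 * (1 / 1024) := by
      have := P.v1u
      gcongr
    have c2 : v₂ * a₂ ^ 2 ≤ 9 * (1 / 1024) := by
      have := P.v2u
      gcongr
    have c3 : 0 ≤ v₁ * a₁ ^ 2 := mul_nonneg (by linarith [P.v1l]) (sq_nonneg _)
    have c4 : 0 ≤ v₂ * a₂ ^ 2 := mul_nonneg (by linarith [P.v2l]) (sq_nonneg _)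
    rw [abs_le]
    constructor <;> linarith
  have hb := P.rest_B
  have hq := P.dr2
  have hB : |Bq δ v₁ v₂ a₁ a₂ e₁ e₂| ≤ 27 / 1024 + (6 / 4096 * (δ * r ^ 2) + Q ^ 2 / 15) := by
    unfold Bq
    calc _ = |3 * (v₁ * a₁ ^ 2 - v₂ * a₂ ^ 2)
          + (2 * δ * (a₁ ^ 3 - a₂ ^ 3) + 2 * (e₁ - e₂))| := by congr 1; ring
      _ ≤ |3 * (v₁ * a₁ ^ 2 - v₂ * a₂ ^ 2)| + |2 * δ * (a₁ ^ 3 - a₂ ^ 3) + 2 * (e₁ - e₂)| :=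
          abs_add_le _ _
      _ ≤ 27 / 1024 + (6 / 4096 * (δ * r ^ 2) + Q ^ 2 / 15) := by
          rw [abs_mul, abs_of_nonneg (show (0 : ℝ) ≤ 3 by norm_num)]
          linarith
  rw [abs_mul, abs_of_nonneg (by linarith : (0 : ℝ) ≤ 4 * Q)]
  calc 4 * Q * |Bq δ v₁ v₂ a₁ a₂ e₁ e₂| ≤
        4 * Q * (27 / 1024 + (6 / 4096 * (δ * r ^ 2) + Q ^ 2 / 15)) := by gcongr
    _ = 108 / 1024 * Q + 24 / 4096 * (Q * (δ * r ^ 2)) + 4 / 15 * Q ^ 3 := by ring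
    _ ≤ 108 / 1024 * 1 + 24 / 4096 * 1 + 4 / 15 * 1 := by
        have e3 : Q ^ 3 ≤ 1 := pow_le_one₀ Q0.le P.Q1
        have := P.Q1
        gcongr
    _ < 1 := by norm_num

lemma Pair.B_large (P : Pair Q r δ v₁ v₂ a₁ a₂ o₁ o₂ e₁ e₂) (h1 : 1 / 64 ≤ |a₁|)
    (hA : Aq δ v₁ v₂ a₁ a₂ o₁ o₂ = 0) : |4 * Q * Bq δ v₁ v₂ a₁ a₂ e₁ e₂| < 1 := by
  have Q0 := P.Q0
  have hr := P.r0
  have d0 := P.d0
  obtain ⟨h2, h2'⟩ := P.large h1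
  have h3 := P.eps3 h1 hA
  have ha : a₁ ≠ 0 := by
    rintro rfl
    norm_num at h1
  have hpos : 0 < |a₁| := abs_pos.2 ha
  -- the difference of squares
  have e : v₁ * a₁ ^ 2 - v₂ * a₂ ^ 2 =
      v₂ * a₂ ^ 2 * (a₂ - a₁) / a₁ + (v₁ * a₁ ^ 3 - v₂ * a₂ ^ 3) / a₁ := by
    field_simp
    ring
  have f1 : |v₂ * a₂ ^ 2 * (a₂ - a₁) / a₁| ≤ 18 / 4096 * r := by
    rw [abs_div, abs_mul, abs_mul, div_le_iff₀ hpos, abs_pow, abs_sub_comm a₂ a₁,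
      abs_of_nonneg (show 0 ≤ v₂ by linarith [P.v2l])]
    calc v₂ * |a₂| ^ 2 * |a₁ - a₂| ≤ 9 * (r * (2 * |a₁|)) * (1 / 4096) := by
          have h5 := P.v2u
          have h6 := P.a2
          have h7 := P.aa
          have h8 : |a₂| ^ 2 ≤ r * (2 * |a₁|) := by
            rw [sq]
            gcongr
          gcongr
      _ = 18 / 4096 * r * |a₁| := by ring
  have f2 : |(v₁ * a₁ ^ 3 - v₂ * a₂ ^ 3) / a₁| ≤ 24 / 4096 * (δ * r ^ 2) + 1 / 64 := by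
    rw [abs_div, div_le_iff₀ hpos]
    calc |v₁ * a₁ ^ 3 - v₂ * a₂ ^ 3| ≤ 24 / 4096 * (δ * |a₁| ^ 3) + 1 / 4096 := h3
      _ = 24 / 4096 * (δ * |a₁| ^ 2) * |a₁| + 1 / 4096 := by ring
      _ ≤ 24 / 4096 * (δ * r ^ 2) * |a₁| + 1 / 64 * |a₁| := by
          have := P.a1
          gcongr
          linarith
      _ = _ := by ring
  have hb := P.rest_B
  have hq := P.dr2
  have hB : |Bq δ v₁ v₂ a₁ a₂ e₁ e₂| ≤ 3 * (18 / 4096 * r + (24 / 4096 * (δ * r ^ 2) + 1 / 64))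
      + (6 / 4096 * (δ * r ^ 2) + Q ^ 2 / 15) := by
    unfold Bq
    calc _ = |3 * (v₂ * a₂ ^ 2 * (a₂ - a₁) / a₁ + (v₁ * a₁ ^ 3 - v₂ * a₂ ^ 3) / a₁)
          + (2 * δ * (a₁ ^ 3 - a₂ ^ 3) + 2 * (e₁ - e₂))| := by rw [e]; congr 1; ring
      _ ≤ |3 * (v₂ * a₂ ^ 2 * (a₂ - a₁) / a₁ + (v₁ * a₁ ^ 3 - v₂ * a₂ ^ 3) / a₁)|
          + |2 * δ * (a₁ ^ 3 - a₂ ^ 3) + 2 * (e₁ - e₂)| := abs_add_le _ _
      _ ≤ _ := by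
          rw [abs_mul, abs_of_nonneg (show (0 : ℝ) ≤ 3 by norm_num)]
          have := abs_add_le (v₂ * a₂ ^ 2 * (a₂ - a₁) / a₁) ((v₁ * a₁ ^ 3 - v₂ * a₂ ^ 3) / a₁)
          gcongr
          linarith
  rw [abs_mul, abs_of_nonneg (by linarith : (0 : ℝ) ≤ 4 * Q)]
  calc 4 * Q * |Bq δ v₁ v₂ a₁ a₂ e₁ e₂| ≤
        4 * Q * (3 * (18 / 4096 * r + (24 / 4096 * (δ * r ^ 2) + 1 / 64))
      + (6 / 4096 * (δ * r ^ 2) + Q ^ 2 / 15)) := by gcongr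
    _ = 216 / 4096 * (Q * r) + 312 / 4096 * (Q * (δ * r ^ 2)) + 12 / 64 * Q + 4 / 15 * Q ^ 3 := by
        ring
    _ ≤ 216 / 4096 * 1 + 312 / 4096 * 1 + 12 / 64 * 1 + 4 / 15 * 1 := by
        have e3 : Q ^ 3 ≤ 1 := pow_le_one₀ Q0.le P.Q1
        have := P.Q1
        rw [P.Qr]
        gcongr
    _ < 1 := by norm_num

lemma Pair.dr (P : Pair Q r δ v₁ v₂ a₁ a₂ o₁ o₂ e₁ e₂) : δ * r ^ 2 ≤ 1 := by
  have hr := P.r0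
  have Q0 := P.Q0
  have Qr := P.Qr
  calc δ * r ^ 2 ≤ Q ^ 5 * r ^ 2 := by
        have := P.d1
        gcongr
    _ = (Q * r) ^ 2 * Q ^ 3 := by ring
    _ ≤ 1 := by
        rw [Qr]
        have e5 : Q ^ 3 ≤ 1 := pow_le_one₀ Q0.le P.Q1
        linarith

lemma Pair.C_aux (P : Pair Q r δ v₁ v₂ a₁ a₂ o₁ o₂ e₁ e₂) {X : ℝ}
    (hX : |v₁ * a₁ - v₂ * a₂| ≤ X) : |6 * r * Cq δ v₁ v₂ a₁ a₂| ≤ 12 * r * X + 12 / 4096 := by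
  have hr := P.r0
  have d0 := P.d0
  have h2 := sq_sub P.a1 P.a2 P.aa
  have hd := P.dr
  rw [abs_mul, abs_of_nonneg (by linarith : (0 : ℝ) ≤ 6 * r)]
  have hC : |Cq δ v₁ v₂ a₁ a₂| ≤ 2 * X + δ * (2 * r * (1 / 4096)) := by
    unfold Cq
    calc |2 * (v₁ * a₁ - v₂ * a₂) + δ * (a₁ ^ 2 - a₂ ^ 2)| ≤
        |2 * (v₁ * a₁ - v₂ * a₂)| + |δ * (a₁ ^ 2 - a₂ ^ 2)| := abs_add_le _ _
      _ = 2 * |v₁ * a₁ - v₂ * a₂| + δ * |a₁ ^ 2 - a₂ ^ 2| := by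
          simp only [abs_mul, abs_of_nonneg P.d0]
          norm_num
      _ ≤ 2 * X + δ * (2 * r * (1 / 4096)) := by gcongr
  calc 6 * r * |Cq δ v₁ v₂ a₁ a₂| ≤ 6 * r * (2 * X + δ * (2 * r * (1 / 4096))) := by gcongr
    _ = 12 * r * X + 12 / 4096 * (δ * r ^ 2) := by ring
    _ ≤ 12 * r * X + 12 / 4096 * 1 := by gcongr
    _ = _ := by ring

lemma Pair.C_small (P : Pair Q r δ v₁ v₂ a₁ a₂ o₁ o₂ e₁ e₂) (h1 : |a₁| ≤ 1 / 32)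
    (h2 : |a₂| ≤ 1 / 32) {J : ℝ} (hJ0 : 0 ≤ J) (hJ : J ≤ 4096 * |a₁|) :
    |6 * r * Cq δ v₁ v₂ a₁ a₂| ≤ 52 + 131072 * r / (J + 1) ^ 2 := by
  have hr := P.r0
  have hX : |v₁ * a₁ - v₂ * a₂| ≤ 18 / 32 := by
    have c1 : |v₁ * a₁| ≤ 9 * (1 / 32) := by
      rw [abs_mul, abs_of_nonneg (show 0 ≤ v₁ by linarith [P.v1l])]
      have := P.v1u
      gcongr
    have c2 : |v₂ * a₂| ≤ 9 * (1 / 32) := by
      rw [abs_mul, abs_of_nonneg (show 0 ≤ v₂ by linarith [P.v2l])]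
      have := P.v2u
      gcongr
    have := abs_sub (v₁ * a₁) (v₂ * a₂)
    linarith
  have h := P.C_aux hX
  have hJ1 : (J + 1) ^ 2 ≤ 129 ^ 2 := by
    have : J + 1 ≤ 129 := by linarith
    gcongr
  have hpos : 0 < (J + 1) ^ 2 := by positivity
  have h3 : 27 / 4 * r ≤ 131072 * r / (J + 1) ^ 2 := by
    rw [le_div_iff₀ hpos]
    calc 27 / 4 * r * (J + 1) ^ 2 ≤ 27 / 4 * r * 129 ^ 2 := by gcongr
      _ ≤ 131072 * r := by nlinarith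
  linarith

lemma Pair.C_large (P : Pair Q r δ v₁ v₂ a₁ a₂ o₁ o₂ e₁ e₂) (h1 : 1 / 64 ≤ |a₁|)
    (hA : Aq δ v₁ v₂ a₁ a₂ o₁ o₂ = 0) (hB : Bq δ v₁ v₂ a₁ a₂ e₁ e₂ = 0)
    {J : ℝ} (hJ0 : 0 ≤ J) (hJ : J ≤ 4096 * |a₁|) :
    |6 * r * Cq δ v₁ v₂ a₁ a₂| ≤ 52 + 131072 * r / (J + 1) ^ 2 := by
  have hr := P.r0
  have Q0 := P.Q0
  have d0 := P.d0
  obtain ⟨h2, h2'⟩ := P.large h1
  have h3 := P.eps3 h1 hA
  have h4 := P.eps2 h1 hB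
  have ha : a₁ ≠ 0 := by
    rintro rfl
    norm_num at h1
  have ha2 : a₂ ≠ 0 := by
    rintro rfl
    rw [abs_zero] at h2'
    linarith
  have hpos : 0 < |a₁| := abs_pos.2 ha
  have hpos2 : 0 < |a₂| := abs_pos.2 ha2
  have e : v₁ * a₁ - v₂ * a₂ = (v₁ * a₁ ^ 2 - v₂ * a₂ ^ 2) / a₁ + (v₁ * a₁ ^ 2 - v₂ * a₂ ^ 2) / a₂
      - (v₁ * a₁ ^ 3 - v₂ * a₂ ^ 3) / (a₁ * a₂) := by
    field_simp
    ring
  set a := |a₁| with haa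
  have g1 : |(v₁ * a₁ ^ 2 - v₂ * a₂ ^ 2) / a₁| ≤ (8 / 4096 * (δ * a ^ 2) + Q ^ 2 / 45) / a := by
    rw [abs_div]
    gcongr
  have g2 : |(v₁ * a₁ ^ 2 - v₂ * a₂ ^ 2) / a₂| ≤
      (8 / 4096 * (δ * a ^ 2) + Q ^ 2 / 45) / (a / 2) := by
    rw [abs_div]
    gcongr
    linarith
  have g3 : |(v₁ * a₁ ^ 3 - v₂ * a₂ ^ 3) / (a₁ * a₂)| ≤
      (24 / 4096 * (δ * a ^ 3) + 1 / 4096) / (a * (a / 2)) := by
    rw [abs_div, abs_mul]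
    gcongr
    linarith
  have hX : |v₁ * a₁ - v₂ * a₂| ≤
      72 / 4096 * (δ * a) + Q ^ 2 / 15 / a + 1 / 2048 / a ^ 2 := by
    rw [e]
    calc _ ≤ |(v₁ * a₁ ^ 2 - v₂ * a₂ ^ 2) / a₁| + |(v₁ * a₁ ^ 2 - v₂ * a₂ ^ 2) / a₂|
          + |(v₁ * a₁ ^ 3 - v₂ * a₂ ^ 3) / (a₁ * a₂)| := by
          refine (abs_sub _ _).trans ?_
          gcongr
          exact abs_add_le _ _
      _ ≤ (8 / 4096 * (δ * a ^ 2) + Q ^ 2 / 45) / a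
          + (8 / 4096 * (δ * a ^ 2) + Q ^ 2 / 45) / (a / 2)
          + (24 / 4096 * (δ * a ^ 3) + 1 / 4096) / (a * (a / 2)) := by gcongr
      _ = _ := by field_simp; ring
  have h := P.C_aux hX
  have hd := P.dr
  have t1 : 12 * r * (72 / 4096 * (δ * a)) ≤ 864 / 4096 := by
    have : a ≤ r := P.a1
    calc 12 * r * (72 / 4096 * (δ * a)) ≤ 12 * r * (72 / 4096 * (δ * r)) := by gcongr
      _ = 864 / 4096 * (δ * r ^ 2) := by ring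
      _ ≤ 864 / 4096 * 1 := by gcongr
      _ = _ := by ring
  have t2 : 12 * r * (Q ^ 2 / 15 / a) ≤ 256 / 5 := by
    rw [mul_div_assoc', div_le_iff₀ hpos]
    calc 12 * r * (Q ^ 2 / 15) = 12 / 15 * Q * (Q * r) := by ring
      _ ≤ 12 / 15 * 1 * 1 := by
          rw [P.Qr]
          have := P.Q1
          gcongr
      _ ≤ 256 / 5 * a := by linarith
  have t3 : 12 * r * (1 / 2048 / a ^ 2) ≤ 131072 * r / (J + 1) ^ 2 := by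
    have hp : 0 < (J + 1) ^ 2 := by positivity
    rw [mul_div_assoc', div_le_div_iff₀ (by positivity) hp]
    have h5 : (J + 1) ^ 2 ≤ (4160 * a) ^ 2 := by
      have : J + 1 ≤ 4160 * a := by linarith
      gcongr
    calc 12 * r * (1 / 2048) * (J + 1) ^ 2 ≤ 12 * r * (1 / 2048) * (4160 * a) ^ 2 := by gcongr
      _ ≤ 131072 * r * a ^ 2 := by nlinarith [mul_pos hr (pow_pos hpos 2)]
  calc |6 * r * Cq δ v₁ v₂ a₁ a₂| ≤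
      12 * r * (72 / 4096 * (δ * a) + Q ^ 2 / 15 / a + 1 / 2048 / a ^ 2) + 12 / 4096 := h
    _ = 12 * r * (72 / 4096 * (δ * a)) + 12 * r * (Q ^ 2 / 15 / a)
        + 12 * r * (1 / 2048 / a ^ 2) + 12 / 4096 := by ring
    _ ≤ 864 / 4096 + 256 / 5 + 131072 * r / (J + 1) ^ 2 + 12 / 4096 := by gcongr
    _ ≤ _ := by linarith

/-- Bound for the third integer. -/
lemma Pair.C_bound (P : Pair Q r δ v₁ v₂ a₁ a₂ o₁ o₂ e₁ e₂)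
    (hA : Aq δ v₁ v₂ a₁ a₂ o₁ o₂ = 0) (hB : Bq δ v₁ v₂ a₁ a₂ e₁ e₂ = 0)
    {J : ℝ} (hJ0 : 0 ≤ J) (hJ : J ≤ 4096 * |a₁|) :
    |6 * r * Cq δ v₁ v₂ a₁ a₂| ≤ 52 + 131072 * r / (J + 1) ^ 2 := by
  by_cases h1 : |a₁| ≤ 1 / 32 ∧ |a₂| ≤ 1 / 32
  · exact P.C_small h1.1 h1.2 hJ0 hJ
  · refine P.C_large ?_ hA hB hJ0 hJ
    have h := P.aa
    have e2 : |a₂| - |a₁| ≤ 1 / 4096 := by
      have : |a₂| - |a₁| ≤ |a₂ - a₁| := abs_sub_abs_le_abs_sub _ _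
      rw [abs_sub_comm] at this
      linarith
    by_contra hc
    push Not at hc
    exact h1 ⟨by linarith, by linarith⟩

/-- The second integer vanishes. -/
lemma Pair.B_bound (P : Pair Q r δ v₁ v₂ a₁ a₂ o₁ o₂ e₁ e₂)
    (hA : Aq δ v₁ v₂ a₁ a₂ o₁ o₂ = 0) : |4 * Q * Bq δ v₁ v₂ a₁ a₂ e₁ e₂| < 1 := by
  by_cases h1 : |a₁| ≤ 1 / 32 ∧ |a₂| ≤ 1 / 32
  · exact P.B_small h1.1 h1.2
  · refine P.B_large ?_ hA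
    have h := P.aa
    have e2 : |a₂| - |a₁| ≤ 1 / 4096 := by
      have : |a₂| - |a₁| ≤ |a₂ - a₁| := abs_sub_abs_le_abs_sub _ _
      rw [abs_sub_comm] at this
      linarith
    by_contra hc
    push Not at hc
    exact h1 ⟨by linarith, by linarith⟩

end Pool.Agent.Helper52.Hall
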