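import Pool.Agent.Helper52.Hall.ScaleCount

/-!
# The exceptional set of Hall's inequality
-/

namespace Pool.Agent.Helper52.Hall

open Finset

lemma four_pow_sum (I : ℕ) : ∑ i ∈ range (I + 1), ((2 : ℝ) ^ i) ^ 2 ≤ 2 * 4 ^ I := by
  induction I with
  | zero => norm_num
  | succ I ih =>
    rw [sum_range_succ]
    have h : ((2 : ℝ) ^ (I + 1)) ^ 2 = 4 ^ (I + 1) := by
      rw [← pow_mul, mul_comm, pow_mul]
      norm_num
    rw [h, pow_succ]
    have : (0 : ℝ) ≤ 4 ^ I := by positivity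
    linarith

lemma four_pow_le {I : ℕ} {X : ℝ} (hX : 1 ≤ X) (h : (8 : ℝ) ^ I ≤ 2 * √X) :
    (4 : ℝ) ^ I ≤ 2 * X ^ (1 / 3 : ℝ) := by
  have h1 : ((4 : ℝ) ^ I) ^ 3 ≤ 8 * X := by
    calc ((4 : ℝ) ^ I) ^ 3 = ((8 : ℝ) ^ I) ^ 2 := by
          rw [← pow_mul, ← pow_mul, mul_comm I 3, mul_comm I 2, pow_mul, pow_mul]
          norm_num
      _ ≤ (2 * √X) ^ 2 := by gcongr
      _ = 4 * X := by
          rw [mul_pow, Real.sq_sqrt (by linarith)]
          norm_num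
      _ ≤ 8 * X := by linarith
  have h2 : ((4 : ℝ) ^ I) = (((4 : ℝ) ^ I) ^ 3) ^ (1 / 3 : ℝ) := by
    have := Real.pow_rpow_inv_natCast (x := (4 : ℝ) ^ I) (n := 3) (by positivity) (by norm_num)
    push_cast at this
    rw [one_div]
    exact this.symm
  rw [h2]
  calc (((4 : ℝ) ^ I) ^ 3) ^ (1 / 3 : ℝ) ≤ (8 * X) ^ (1 / 3 : ℝ) := by gcongr
    _ = (8 : ℝ) ^ (1 / 3 : ℝ) * X ^ (1 / 3 : ℝ) :=
        Real.mul_rpow (by norm_num) (by linarith)
    _ = 2 * X ^ (1 / 3 : ℝ) := by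
        have : (8 : ℝ) ^ (1 / 3 : ℝ) = 2 := by
          rw [show (8 : ℝ) = 2 ^ (3 : ℝ) by norm_num, ← Real.rpow_mul (by norm_num)]
          norm_num
        rw [this]

/-- Choice of the scale. -/
lemma exists_scale {K : ℝ} (hK : 1 ≤ K) {x : ℕ} (h : 512 * K ≤ NN x) :
    Scale K (2 ^ Nat.log 8 (NN x).toNat) x := by
  have hN1 : (512 : ℝ) ≤ NN x := by linarith
  have hN2 : (512 : ℤ) ≤ NN x := by exact_mod_cast hN1
  set n := (NN x).toNat with hn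
  have hnz : (n : ℤ) = NN x := Int.toNat_of_nonneg (by linarith)
  have hn0 : n ≠ 0 := by omega
  have h1 : 8 ^ Nat.log 8 n ≤ n := Nat.pow_log_le_self 8 hn0
  have h2 : n < 8 ^ (Nat.log 8 n + 1) := Nat.lt_pow_succ_log_self (by norm_num) n
  have h3 : ((2 ^ Nat.log 8 n : ℕ) : ℤ) ^ 3 = ((8 ^ Nat.log 8 n : ℕ) : ℤ) := by
    push_cast
    rw [← pow_mul, mul_comm, pow_mul]
    norm_num
  have h3r : ((2 ^ Nat.log 8 n : ℕ) : ℝ) ^ 3 = ((8 ^ Nat.log 8 n : ℕ) : ℝ) := by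
    exact_mod_cast h3
  refine ⟨?_, by linarith, ?_, ?_, ?_⟩
  · have : 2 ≤ Nat.log 8 n := by
      apply Nat.le_log_of_pow_le (by norm_num)
      omega
    calc 4 = 2 ^ 2 := by norm_num
      _ ≤ 2 ^ Nat.log 8 n := Nat.pow_le_pow_right (by norm_num) this
  · rw [h3r]
    have h4 : (n : ℝ) < 8 * ((8 ^ Nat.log 8 n : ℕ) : ℝ) := by
      have : n < 8 * 8 ^ Nat.log 8 n := by rw [pow_succ] at h2; omega
      exact_mod_cast this
    have h5 : (n : ℝ) = NN x := by exact_mod_cast hnz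
    linarith
  · rw [h3, ← hnz]
    exact_mod_cast h1
  · rw [h3, ← hnz]
    have : n < 8 * 8 ^ Nat.log 8 n := by rw [pow_succ] at h2; omega
    exact_mod_cast this

/-- Main theorem with natural numbers `x` in a finite set. -/
theorem main {K X : ℝ} (hK : 1 ≤ K) (hX : 1 ≤ X) (S : Finset ℕ)
    (hS : ∀ x ∈ S, (x : ℝ) ≤ X ∧ ∃ y : ℤ, IsNear K x y) :
    (S.card : ℝ) ≤ 263170 * K ^ 2 + 4 * (3 * 2000000 * 113 * 16883) * (K * X ^ (1 / 3 : ℝ)) := by
  classical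
  set yy : ℕ → ℤ := fun x => if h : ∃ y : ℤ, IsNear K x y then h.choose else 0 with hyy
  have hyy' : ∀ x ∈ S, IsNear K x (yy x) := by
    intro x hx
    have h := (hS x hx).2
    rw [hyy]
    simp only
    rw [dif_pos h]
    exact h.choose_spec
  rw [← card_filter_add_card_filter_not (fun x : ℕ => (NN x : ℝ) < 512 * K)]
  push_cast
  have hsmall : (((S.filter (fun x : ℕ => (NN x : ℝ) < 512 * K)).card : ℕ) : ℝ) ≤
      263170 * K ^ 2 := by
    have hsub : S.filter (fun x : ℕ => (NN x : ℝ) < 512 * K) ⊆ range (⌊(513 * K) ^ 2⌋₊ + 1) := by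
      intro x hx
      obtain ⟨-, hx2⟩ := mem_filter.1 hx
      rw [mem_range, Nat.lt_succ_iff]
      apply Nat.le_floor
      have hu := abs_le.1 (uu_abs x)
      have h1 : √(x : ℝ) ≤ 513 * K := by rw [sqrt_eq]; linarith
      calc (x : ℝ) = √(x : ℝ) ^ 2 := (Real.sq_sqrt (Nat.cast_nonneg x)).symm
        _ ≤ (513 * K) ^ 2 := by gcongr
    have h1 := card_le_card hsub
    rw [card_range] at h1
    have h2 : ((⌊(513 * K) ^ 2⌋₊ : ℕ) : ℝ) ≤ (513 * K) ^ 2 := Nat.floor_le (by positivity)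
    have h3 : (((S.filter (fun x : ℕ => (NN x : ℝ) < 512 * K)).card : ℕ) : ℝ) ≤
        ((⌊(513 * K) ^ 2⌋₊ : ℕ) : ℝ) + 1 := by exact_mod_cast h1
    nlinarith
  have hbig : (((S.filter (fun x : ℕ => ¬ (NN x : ℝ) < 512 * K)).card : ℕ) : ℝ) ≤
      4 * (3 * 2000000 * 113 * 16883) * (K * X ^ (1 / 3 : ℝ)) := by
    set I := Nat.log 8 ⌊2 * √X⌋₊ with hI
    have hsX : 1 ≤ √X := Real.one_le_sqrt.2 hX
    have hI8 : (8 : ℝ) ^ I ≤ 2 * √X := by
      have h0 : ⌊2 * √X⌋₊ ≠ 0 := by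
        have : 1 ≤ ⌊2 * √X⌋₊ := Nat.le_floor (by push_cast; linarith)
        omega
      have h1 : 8 ^ I ≤ ⌊2 * √X⌋₊ := Nat.pow_log_le_self 8 h0
      have h2 : ((⌊2 * √X⌋₊ : ℕ) : ℝ) ≤ 2 * √X := Nat.floor_le (by positivity)
      have h3 : (8 : ℝ) ^ I ≤ ((⌊2 * √X⌋₊ : ℕ) : ℝ) := by exact_mod_cast h1
      linarith
    have h := card_le_sum (S := S.filter (fun x : ℕ => ¬ (NN x : ℝ) < 512 * K))
      (t := range (I + 1))
      (f := fun i => (S.filter (fun x : ℕ => ¬ (NN x : ℝ) < 512 * K)).filter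
        (fun x => Nat.log 8 (NN x).toNat = i))
      (F := fun i => 3 * 2000000 * 113 * 16883 * (K * (((2 ^ i : ℕ) : ℝ)) ^ 2)) ?_ ?_
    · refine h.trans ?_
      have h1 : ∑ i ∈ range (I + 1), 3 * 2000000 * 113 * 16883 * (K * (((2 ^ i : ℕ) : ℝ)) ^ 2) =
          3 * 2000000 * 113 * 16883 * (K * ∑ i ∈ range (I + 1), ((2 : ℝ) ^ i) ^ 2) := by
        rw [mul_sum, mul_sum]
        push_cast
        rfl
      rw [h1]
      have h2 := four_pow_sum I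
      have h3 := four_pow_le hX hI8
      calc 3 * 2000000 * 113 * 16883 * (K * ∑ i ∈ range (I + 1), ((2 : ℝ) ^ i) ^ 2) ≤
            3 * 2000000 * 113 * 16883 * (K * (2 * (2 * X ^ (1 / 3 : ℝ)))) := by
            gcongr
            linarith
        _ = _ := by ring
    · intro x hx
      refine ⟨Nat.log 8 (NN x).toNat, ?_, mem_filter.2 ⟨hx, rfl⟩⟩
      obtain ⟨hxS, hx2⟩ := mem_filter.1 hx
      push Not at hx2
      rw [mem_range, Nat.lt_succ_iff]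
      apply Nat.log_mono_right
      apply Nat.le_floor
      have hN : (0 : ℝ) ≤ NN x := by linarith
      have hN' : 0 ≤ NN x := by exact_mod_cast hN
      have e1 : (((NN x).toNat : ℕ) : ℝ) = NN x := by exact_mod_cast Int.toNat_of_nonneg hN'
      rw [e1]
      have hu := abs_le.1 (uu_abs x)
      have h1 : √(x : ℝ) ≤ √X := Real.sqrt_le_sqrt (hS x hxS).1
      rw [sqrt_eq] at h1
      linarith
    · intro i _
      apply scale_count hK yy
      intro x hx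
      obtain ⟨hx1, hx2⟩ := mem_filter.1 hx
      obtain ⟨hxS, hx3⟩ := mem_filter.1 hx1
      push Not at hx3
      have := exists_scale hK hx3
      rw [hx2] at this
      exact ⟨this, hyy' x hxS⟩
  linarith

/-- The exceptional set of Hall's inequality with constant `K`. -/
theorem exceptional : ∃ C : ℝ, ∀ K X : ℝ, 1 ≤ K → 1 ≤ X →
    ({x : ℕ | (x : ℝ) ≤ X ∧ ∃ y : ℤ, (x : ℤ) ^ 3 ≠ y ^ 2 ∧
      |(x : ℝ) ^ 3 - (y : ℝ) ^ 2| ≤ K * √(x : ℝ)}.ncard : ℝ) ≤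
      C * (K ^ 2 + K * X ^ (1 / 3 : ℝ)) := by
  refine ⟨4 * (3 * 2000000 * 113 * 16883), fun K X hK hX => ?_⟩
  set A := {x : ℕ | (x : ℝ) ≤ X ∧ ∃ y : ℤ, (x : ℤ) ^ 3 ≠ y ^ 2 ∧
      |(x : ℝ) ^ 3 - (y : ℝ) ^ 2| ≤ K * √(x : ℝ)} with hA
  have hfin : A.Finite := by
    apply (Set.finite_Iic ⌊X⌋₊).subset
    intro x hx
    exact Nat.le_floor hx.1
  rw [Set.ncard_eq_toFinset_card A hfin]
  have h := main hK hX hfin.toFinset ?_
  · refine h.trans ?_
    have hK2 : 0 ≤ K ^ 2 := by positivity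
    nlinarith
  · intro x hx
    rw [Set.Finite.mem_toFinset] at hx
    obtain ⟨hx1, y, hy1, hy2⟩ := hx
    refine ⟨hx1, |y|, abs_nonneg _, ?_, ?_⟩
    · rw [sq_abs]; exact hy1
    · rw [Int.cast_abs, sq_abs]; exact hy2

end Pool.Agent.Helper52.Hall
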