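import Pool.Agent.Helper52.Hall.Alg
import Pool.Agent.Helper52.Hall.Ineq

/-!
# Near-solutions of `x ^ 3 = y ^ 2` and the analysis of pairs
-/

namespace Pool.Agent.Helper52.Hall

/-- `0 < |x³ - y²| ≤ K √x` with `y ≥ 0` -/
structure IsNear (K : ℝ) (x : ℕ) (y : ℤ) : Prop where
  y0 : 0 ≤ y
  ne : (x : ℤ) ^ 3 ≠ y ^ 2
  le : |(x : ℝ) ^ 3 - (y : ℝ) ^ 2| ≤ K * √x

/-- nearest integer to `√x` -/
noncomputable def NN (x : ℕ) : ℤ := round (√(x : ℝ))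

/-- `√x - N` -/
noncomputable def uu (x : ℕ) : ℝ := √(x : ℝ) - NN x

/-- `x - N²` -/
noncomputable def kk (x : ℕ) : ℤ := x - NN x ^ 2

/-- `2y - 2N³ - 3Nk` -/
noncomputable def ss (x : ℕ) (y : ℤ) : ℤ := 2 * y - 2 * NN x ^ 3 - 3 * NN x * kk x

/-- `3k² - 4Ns` -/
noncomputable def ww (x : ℕ) (y : ℤ) : ℤ := 3 * kk x ^ 2 - 4 * NN x * ss x y

/-- `y - x^(3/2)` -/
noncomputable def ee (x : ℕ) (y : ℤ) : ℝ := y - √(x : ℝ) ^ 3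

lemma uu_abs (x : ℕ) : |uu x| ≤ 1 / 2 := abs_sub_round _

lemma sqrt_eq (x : ℕ) : √(x : ℝ) = NN x + uu x := by unfold uu; ring

lemma kk_eq (x : ℕ) : (kk x : ℝ) = 2 * NN x * uu x + uu x ^ 2 := by
  have h : (x : ℝ) = (NN x + uu x) ^ 2 := by
    rw [← sqrt_eq, Real.sq_sqrt (Nat.cast_nonneg x)]
  unfold kk
  push_cast
  rw [h]
  ring

lemma ss_eq (x : ℕ) (y : ℤ) :
    (ss x y : ℝ) = 3 * NN x * uu x ^ 2 + 2 * uu x ^ 3 + 2 * ee x y := by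
  have h := kk_eq x
  unfold ss ee
  push_cast
  rw [h, sqrt_eq]
  ring

lemma ww_eq (x : ℕ) (y : ℤ) :
    (ww x y : ℝ) = 4 * NN x * uu x ^ 3 + 3 * uu x ^ 4 - 8 * NN x * ee x y := by
  have h := kk_eq x
  have h' := ss_eq x y
  unfold ww
  push_cast
  rw [h, h']
  ring

variable {K : ℝ} {x : ℕ} {y : ℤ} {T : ℕ}

/-- The scale assumptions. -/
structure Scale (K : ℝ) (T x : ℕ) : Prop where
  T4 : 4 ≤ T
  K0 : 0 ≤ K
  K64 : 64 * K ≤ (T : ℝ) ^ 3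
  Nl : (T : ℤ) ^ 3 ≤ NN x
  Nu : NN x < 8 * (T : ℤ) ^ 3

lemma Scale.T64 (S : Scale K T x) : (64 : ℝ) ≤ (T : ℝ) ^ 3 := by
  have : (4 : ℝ) ≤ T := by exact_mod_cast S.T4
  calc (64 : ℝ) = 4 ^ 3 := by norm_num
    _ ≤ (T : ℝ) ^ 3 := by gcongr

lemma Scale.Nl' (S : Scale K T x) : (T : ℝ) ^ 3 ≤ NN x := by exact_mod_cast S.Nl

lemma Scale.Nu' (S : Scale K T x) : (NN x : ℝ) < 8 * (T : ℝ) ^ 3 := by exact_mod_cast S.Nu

lemma Scale.ee_abs (S : Scale K T x) (h : IsNear K x y) : |ee x y| * (60 * (T : ℝ) ^ 3) ≤ 1 := by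
  have h64 := S.T64
  have hN := S.Nl'
  have hu := abs_le.1 (uu_abs x)
  have ht : 127 / 128 * (T : ℝ) ^ 3 ≤ √(x : ℝ) := by rw [sqrt_eq]; linarith
  have ht0 : 0 < √(x : ℝ) := by linarith
  have hy : (0 : ℝ) ≤ y := by exact_mod_cast h.y0
  have e1 : ee x y * (y + √(x : ℝ) ^ 3) = (y : ℝ) ^ 2 - (x : ℝ) ^ 3 := by
    unfold ee
    have : (x : ℝ) = √(x : ℝ) ^ 2 := (Real.sq_sqrt (Nat.cast_nonneg x)).symm
    have h6 : (x : ℝ) ^ 3 = √(x : ℝ) ^ 6 := by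
      calc (x : ℝ) ^ 3 = (√(x : ℝ) ^ 2) ^ 3 := by rw [← this]
        _ = _ := by ring
    rw [h6]
    ring
  have e2 : |ee x y| * √(x : ℝ) ^ 3 ≤ K * √(x : ℝ) := by
    calc |ee x y| * √(x : ℝ) ^ 3 ≤ |ee x y| * (y + √(x : ℝ) ^ 3) := by
          gcongr
          linarith
      _ = |ee x y * (y + √(x : ℝ) ^ 3)| := by
          rw [abs_mul, abs_of_nonneg (show (0 : ℝ) ≤ y + √(x : ℝ) ^ 3 by positivity)]
      _ = |(x : ℝ) ^ 3 - (y : ℝ) ^ 2| := by rw [e1, abs_sub_comm]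
      _ ≤ K * √(x : ℝ) := h.le
  have e3 : |ee x y| * √(x : ℝ) ^ 2 ≤ K := by
    have : |ee x y| * √(x : ℝ) ^ 2 * √(x : ℝ) ≤ K * √(x : ℝ) := by
      calc |ee x y| * √(x : ℝ) ^ 2 * √(x : ℝ) = |ee x y| * √(x : ℝ) ^ 3 := by ring
        _ ≤ _ := e2
    exact le_of_mul_le_mul_right this ht0
  have e4 : |ee x y| * (127 / 128 * (T : ℝ) ^ 3) ^ 2 ≤ (T : ℝ) ^ 3 / 64 := by
    calc |ee x y| * (127 / 128 * (T : ℝ) ^ 3) ^ 2 ≤ |ee x y| * √(x : ℝ) ^ 2 := by gcongr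
      _ ≤ K := e3
      _ ≤ _ := by linarith [S.K64]
  have hT0 : (0 : ℝ) < (T : ℝ) ^ 3 := by linarith
  have e5 : |ee x y| * ((127 / 128) ^ 2 * (T : ℝ) ^ 3) ≤ 1 / 64 := by
    have : |ee x y| * ((127 / 128) ^ 2 * (T : ℝ) ^ 3) * (T : ℝ) ^ 3 ≤ 1 / 64 * (T : ℝ) ^ 3 := by
      calc |ee x y| * ((127 / 128) ^ 2 * (T : ℝ) ^ 3) * (T : ℝ) ^ 3 =
          |ee x y| * (127 / 128 * (T : ℝ) ^ 3) ^ 2 := by ring
        _ ≤ _ := e4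
        _ = _ := by ring
    exact le_of_mul_le_mul_right this hT0
  have e6 : 0 ≤ |ee x y| * (T : ℝ) ^ 3 := by positivity
  nlinarith

/-- Membership of a near-solution in a cell. -/
structure Cell (T q : ℕ) (a j b i : ℤ) (x : ℕ) (y : ℤ) : Prop where
  q1 : 1 ≤ q
  qT : q ≤ T
  cop : IsCoprime a (q : ℤ)
  near : |uu x - a / q| ≤ 1 / (q * T)
  hj : ⌊4096 * ((T : ℝ) ^ 2 * (uu x - a / q))⌋ = j
  hb : ⌊16 * ((NN x : ℝ) / (T : ℝ) ^ 3)⌋ = b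
  hi : ⌊8192 * ((T : ℝ) ^ 3 * ((NN x + a / q) * ee x y))⌋ = i

lemma abs_sub_le_of_floor {s t c : ℝ} (hc : 0 < c) {n : ℤ} (h1 : ⌊c * s⌋ = n) (h2 : ⌊c * t⌋ = n) :
    |s - t| ≤ 1 / c := by
  have a1 := Int.floor_le (c * s)
  have a2 := Int.lt_floor_add_one (c * s)
  have b1 := Int.floor_le (c * t)
  have b2 := Int.lt_floor_add_one (c * t)
  rw [h1] at a1 a2
  rw [h2] at b1 b2
  rw [abs_le]
  constructor
  · rw [neg_le, ← sub_nonneg, ← mul_nonneg_iff_of_pos_left hc]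
    have : c * (1 / c) = 1 := by field_simp
    nlinarith
  · rw [← sub_nonneg, ← mul_nonneg_iff_of_pos_left hc]
    have : c * (1 / c) = 1 := by field_simp
    nlinarith

end Pool.Agent.Helper52.Hall
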