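import Pool.Agent.Helper52.Hall.Near

/-!
# Two near-solutions in the same cell
-/

namespace Pool.Agent.Helper52.Hall

variable {K : ℝ} {x₁ x₂ : ℕ} {y₁ y₂ : ℤ} {T q : ℕ} {a j b i : ℤ}

lemma Cell.p_abs {x : ℕ} {y : ℤ} (hT : 4 ≤ T) (c : Cell T q a j b i x y) :
    |(a : ℝ) / q| ≤ 3 / 4 := by
  have h1 := uu_abs x
  have h2 := c.near
  have hq : (1 : ℝ) ≤ q := by exact_mod_cast c.q1
  have hT' : (4 : ℝ) ≤ T := by exact_mod_cast hT
  have h3 : 1 / ((q : ℝ) * T) ≤ 1 / 4 := by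
    apply one_div_le_one_div_of_le (by norm_num)
    nlinarith
  calc |(a : ℝ) / q| = |uu x - (uu x - a / q)| := by congr 1; ring
    _ ≤ |uu x| + |uu x - a / q| := abs_sub _ _
    _ ≤ 3 / 4 := by linarith

lemma pair_of_cells (S₁ : Scale K T x₁) (S₂ : Scale K T x₂) (h₁ : IsNear K x₁ y₁)
    (h₂ : IsNear K x₂ y₂) (c₁ : Cell T q a j b i x₁ y₁) (c₂ : Cell T q a j b i x₂ y₂) :
    Pair ((q : ℝ) / T) ((T : ℝ) / q) (1 / (T : ℝ) ^ 5)
      (((NN x₁ : ℝ) + a / q) / (T : ℝ) ^ 3) (((NN x₂ : ℝ) + a / q) / (T : ℝ) ^ 3)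
      ((T : ℝ) ^ 2 * (uu x₁ - a / q)) ((T : ℝ) ^ 2 * (uu x₂ - a / q))
      ((T : ℝ) ^ 3 * ((NN x₁ + a / q) * ee x₁ y₁)) ((T : ℝ) ^ 3 * ((NN x₂ + a / q) * ee x₂ y₂))
      (T * ee x₁ y₁) (T * ee x₂ y₂) := by
  have hT4 : (4 : ℝ) ≤ T := by exact_mod_cast S₁.T4
  have hT0 : (0 : ℝ) < T := by linarith
  have hq1 : (1 : ℝ) ≤ q := by exact_mod_cast c₁.q1
  have hq0 : (0 : ℝ) < q := by linarith
  have hqT : (q : ℝ) ≤ T := by exact_mod_cast c₁.qT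
  have h64 := S₁.T64
  have hp := abs_le.1 (c₁.p_abs S₁.T4)
  have hT3 : (0 : ℝ) < (T : ℝ) ^ 3 := by positivity
  have key_a : ∀ x : ℕ, |uu x - a / q| ≤ 1 / (q * T) →
      |(T : ℝ) ^ 2 * (uu x - a / q)| ≤ (T : ℝ) / q := by
    intro x hx
    rw [abs_mul, abs_of_nonneg (by positivity : (0 : ℝ) ≤ (T : ℝ) ^ 2)]
    calc (T : ℝ) ^ 2 * |uu x - a / q| ≤ (T : ℝ) ^ 2 * (1 / (q * T)) := by gcongr
      _ = (T : ℝ) / q := by field_simp
  have key_e : ∀ (x : ℕ) (y : ℤ), Scale K T x → IsNear K x y →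
      |(T : ℝ) * ee x y| ≤ ((q : ℝ) / T) ^ 2 / 60 := by
    intro x y S h
    have := S.ee_abs h
    rw [abs_mul, abs_of_nonneg hT0.le]
    have h5 : (T : ℝ) * |ee x y| ≤ 1 / (60 * (T : ℝ) ^ 2) := by
      rw [le_div_iff₀ (by positivity)]
      calc (T : ℝ) * |ee x y| * (60 * (T : ℝ) ^ 2) = |ee x y| * (60 * (T : ℝ) ^ 3) := by ring
        _ ≤ 1 := this
    calc (T : ℝ) * |ee x y| ≤ 1 / (60 * (T : ℝ) ^ 2) := h5
      _ ≤ ((q : ℝ) / T) ^ 2 / 60 := by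
          rw [div_pow, div_div, div_le_div_iff₀ (by positivity) (by positivity)]
          have : (1 : ℝ) ≤ (q : ℝ) ^ 2 := one_le_pow₀ hq1
          nlinarith [pow_pos hT0 2]
  refine ⟨by positivity, ?_, ?_, by positivity, ?_, ?_, ?_, ?_, ?_, ?_, key_a _ c₁.near,
    key_a _ c₂.near, ?_, ?_, key_e _ _ S₁ h₁, key_e _ _ S₂ h₂⟩
  · rw [div_le_one hT0]; exact hqT
  · field_simp
  · rw [div_pow, div_le_div_iff_of_pos_right (by positivity)]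
    exact one_le_pow₀ hq1
  · rw [le_div_iff₀ hT3]
    have := S₁.Nl'
    linarith
  · rw [div_le_iff₀ hT3]
    have := S₁.Nu'
    linarith
  · rw [le_div_iff₀ hT3]
    have := S₂.Nl'
    linarith
  · rw [div_le_iff₀ hT3]
    have := S₂.Nu'
    linarith
  · have := abs_sub_le_of_floor (by norm_num : (0 : ℝ) < 16) c₁.hb c₂.hb
    convert this using 2
    ring
  · have := abs_sub_le_of_floor (by norm_num : (0 : ℝ) < 4096) c₁.hj c₂.hj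
    exact this
  · have := abs_sub_le_of_floor (by norm_num : (0 : ℝ) < 8192) c₁.hi c₂.hi
    exact this

/-- absolute size of the index `j` -/
def jabs (j : ℤ) : ℕ := if 0 ≤ j then j.toNat else (-j - 1).toNat

lemma jabs_le {s : ℝ} {j : ℤ} (h : ⌊4096 * s⌋ = j) : (jabs j : ℝ) ≤ 4096 * |s| := by
  have a1 := Int.floor_le (4096 * s)
  have a2 := Int.lt_floor_add_one (4096 * s)
  rw [h] at a1 a2
  unfold jabs
  split_ifs with hj
  · have e : ((j.toNat : ℕ) : ℝ) = (j : ℝ) := by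
      have := Int.toNat_of_nonneg hj
      exact_mod_cast this
    rw [e]
    have := le_abs_self s
    linarith
  · have hj' : 0 ≤ -j - 1 := by omega
    have e : (((-j - 1).toNat : ℕ) : ℝ) = -(j : ℝ) - 1 := by
      have := Int.toNat_of_nonneg hj'
      exact_mod_cast this
    rw [e]
    have := neg_le_abs s
    linarith

/-- `s = 0` is impossible for a near-solution. -/
lemma no_zero {x : ℕ} {y : ℤ} (S : Scale K T x) (h : IsNear K x y) (hs : ss x y = 0) : False := by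
  have hx : (x : ℤ) = kk x + NN x ^ 2 := by unfold kk; ring
  have h2y : 2 * y = 2 * NN x ^ 3 + 3 * NN x * kk x := by
    have e : ss x y = 2 * y - 2 * NN x ^ 3 - 3 * NN x * kk x := rfl
    rw [e] at hs
    linarith
  have hid : 4 * ((x : ℤ) ^ 3 - y ^ 2) = kk x ^ 2 * (3 * NN x ^ 2 + 4 * kk x) := by
    rw [hx]
    linear_combination (-(2 * y + (2 * NN x ^ 3 + 3 * NN x * kk x))) * h2y
  have hu := uu_abs x
  have hkabs : |(kk x : ℝ)| ≤ NN x + 1 / 4 := by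
    have hN0 : (0 : ℝ) ≤ NN x := by linarith [S.T64, S.Nl']
    rw [kk_eq]
    have h1 : |2 * (NN x : ℝ) * uu x| = 2 * NN x * |uu x| := by
      rw [abs_mul, abs_of_nonneg (by linarith)]
    calc |2 * (NN x : ℝ) * uu x + uu x ^ 2| ≤ |2 * (NN x : ℝ) * uu x| + |uu x ^ 2| :=
          abs_add_le _ _
      _ = 2 * NN x * |uu x| + |uu x| ^ 2 := by rw [h1, abs_pow]
      _ ≤ 2 * NN x * (1 / 2) + (1 / 2) ^ 2 := by gcongr
      _ = NN x + 1 / 4 := by ring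
  have hsq : √(x : ℝ) ≤ NN x + 1 := by
    rw [sqrt_eq]
    have := (abs_le.1 hu).2
    linarith
  have hle := h.le
  have hne := h.ne
  have hNT := S.Nl'
  have hT64 := S.T64
  have hK := S.K64
  have hK0 := S.K0
  have hid' : 4 * ((x : ℝ) ^ 3 - (y : ℝ) ^ 2) =
      (kk x : ℝ) ^ 2 * (3 * (NN x : ℝ) ^ 2 + 4 * kk x) := by
    exact_mod_cast hid
  have hk0 : kk x ≠ 0 := by
    intro h0
    rw [h0] at hid
    exact hne (by linarith)
  have hk2 : (1 : ℝ) ≤ (kk x : ℝ) ^ 2 := by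
    have : 1 ≤ kk x ^ 2 := by
      have := pow_pos (abs_pos.2 hk0) 2
      rw [sq_abs] at this
      omega
    exact_mod_cast this
  generalize (NN x : ℝ) = N at *
  generalize (kk x : ℝ) = k at *
  have hN64 : 64 ≤ N := hT64.trans hNT
  have hk3 := (abs_le.1 hkabs).1
  have h6 : 2 * N ^ 2 ≤ 3 * N ^ 2 + 4 * k := by nlinarith
  have h7 : 2 * N ^ 2 ≤ k ^ 2 * (3 * N ^ 2 + 4 * k) := by
    calc 2 * N ^ 2 = 1 * (2 * N ^ 2) := by ring
      _ ≤ k ^ 2 * (3 * N ^ 2 + 4 * k) := by gcongr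
  have h8 : N ^ 2 / 2 ≤ |(x : ℝ) ^ 3 - (y : ℝ) ^ 2| := by
    refine le_trans ?_ (le_abs_self _)
    linarith
  have h9 : K * √(x : ℝ) ≤ N / 64 * (N + 1) := by
    have : K ≤ N / 64 := by linarith
    gcongr
  nlinarith

/-- The main statement about two near-solutions in the same cell. -/
lemma pair_main (S₁ : Scale K T x₁) (S₂ : Scale K T x₂) (h₁ : IsNear K x₁ y₁)
    (h₂ : IsNear K x₂ y₂) (c₁ : Cell T q a j b i x₁ y₁) (c₂ : Cell T q a j b i x₂ y₂)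
    (hne : x₁ ≠ x₂) :
    ∃ C : ℤ, C ≠ 0 ∧
      6 * ((q * kk x₁ - 2 * a * NN x₁) - (q * kk x₂ - 2 * a * NN x₂)) = (q : ℤ) ^ 2 * C ∧
      |(C : ℝ)| ≤ 52 + 131072 * ((T : ℝ) / q) / ((jabs j : ℝ) + 1) ^ 2 := by
  have P := pair_of_cells S₁ S₂ h₁ h₂ c₁ c₂
  have hT4 : (4 : ℝ) ≤ T := by exact_mod_cast S₁.T4
  have hT0 : (0 : ℝ) < T := by linarith
  have hq1 : (1 : ℝ) ≤ q := by exact_mod_cast c₁.q1
  have hq0 : (0 : ℝ) < q := by linarith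
  have hqz : (0 : ℤ) < q := by exact_mod_cast c₁.q1
  set A : ℤ := (q : ℤ) ^ 3 * (ww x₁ y₁ - ww x₂ y₂) - 4 * a * (q : ℤ) ^ 2 * (ss x₁ y₁ - ss x₂ y₂)
    + 6 * a ^ 2 * q * (kk x₁ - kk x₂) - 4 * a ^ 3 * (NN x₁ - NN x₂) with hAdef
  set G : ℤ := (q : ℤ) ^ 2 * (ss x₁ y₁ - ss x₂ y₂) - 3 * a * q * (kk x₁ - kk x₂)
    + 3 * a ^ 2 * (NN x₁ - NN x₂) with hGdef
  have hAr : (A : ℝ) = ((q : ℝ) / T) ^ 3 * Aq (1 / (T : ℝ) ^ 5)
      (((NN x₁ : ℝ) + a / q) / (T : ℝ) ^ 3) (((NN x₂ : ℝ) + a / q) / (T : ℝ) ^ 3)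
      ((T : ℝ) ^ 2 * (uu x₁ - a / q)) ((T : ℝ) ^ 2 * (uu x₂ - a / q))
      ((T : ℝ) ^ 3 * ((NN x₁ + a / q) * ee x₁ y₁))
      ((T : ℝ) ^ 3 * ((NN x₂ + a / q) * ee x₂ y₂)) := by
    rw [hAdef]
    unfold Aq
    push_cast
    rw [ww_eq, ww_eq, ss_eq, ss_eq, kk_eq, kk_eq]
    field_simp
    ring
  have hA0 : A = 0 := by
    have h := P.A_bound
    have h' : |(A : ℝ)| < 1 := by
      rw [hAr]
      exact h
    have h'' : |A| < 1 := by exact_mod_cast h'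
    exact Int.abs_lt_one_iff.1 h''
  have hAq : Aq (1 / (T : ℝ) ^ 5)
      (((NN x₁ : ℝ) + a / q) / (T : ℝ) ^ 3) (((NN x₂ : ℝ) + a / q) / (T : ℝ) ^ 3)
      ((T : ℝ) ^ 2 * (uu x₁ - a / q)) ((T : ℝ) ^ 2 * (uu x₂ - a / q))
      ((T : ℝ) ^ 3 * ((NN x₁ + a / q) * ee x₁ y₁))
      ((T : ℝ) ^ 3 * ((NN x₂ + a / q) * ee x₂ y₂)) = 0 := by
    rw [hA0, Int.cast_zero] at hAr
    have : ((q : ℝ) / T) ^ 3 ≠ 0 := by positivity
    rcases mul_eq_zero.1 hAr.symm with h | h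
    · exact absurd h this
    · exact h
  obtain ⟨B, hB⟩ := alg_B (q := (q : ℤ)) (DN := NN x₁ - NN x₂) (Dk := kk x₁ - kk x₂)
    (Ds := ss x₁ y₁ - ss x₂ y₂) (Dw := ww x₁ y₁ - ww x₂ y₂) hqz c₁.cop (by rw [← hA0, hAdef])
  have hGr : (G : ℝ) = (q : ℝ) ^ 2 / T * Bq (1 / (T : ℝ) ^ 5)
      (((NN x₁ : ℝ) + a / q) / (T : ℝ) ^ 3) (((NN x₂ : ℝ) + a / q) / (T : ℝ) ^ 3)
      ((T : ℝ) ^ 2 * (uu x₁ - a / q)) ((T : ℝ) ^ 2 * (uu x₂ - a / q))
      (T * ee x₁ y₁) (T * ee x₂ y₂) := by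
    rw [hGdef]
    unfold Bq
    push_cast
    rw [ss_eq, ss_eq, kk_eq, kk_eq]
    field_simp
    ring
  have hBr : (B : ℝ) = 4 * ((q : ℝ) / T) * Bq (1 / (T : ℝ) ^ 5)
      (((NN x₁ : ℝ) + a / q) / (T : ℝ) ^ 3) (((NN x₂ : ℝ) + a / q) / (T : ℝ) ^ 3)
      ((T : ℝ) ^ 2 * (uu x₁ - a / q)) ((T : ℝ) ^ 2 * (uu x₂ - a / q))
      (T * ee x₁ y₁) (T * ee x₂ y₂) := by
    have h1 : (q : ℝ) * B = 4 * G := by
      have : (q : ℤ) * B = 4 * G := by rw [← hB]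
      exact_mod_cast this
    have h2 : (B : ℝ) = 4 * G / q := by field_simp; linarith
    rw [h2, hGr]
    field_simp
  have hB0 : B = 0 := by
    have h := P.B_bound hAq
    have h' : |(B : ℝ)| < 1 := by
      rw [hBr]
      exact h
    have h'' : |B| < 1 := by exact_mod_cast h'
    exact Int.abs_lt_one_iff.1 h''
  have hG0 : G = 0 := by
    have : 4 * G = (q : ℤ) * B := hB
    rw [hB0] at this
    omega
  have hBq : Bq (1 / (T : ℝ) ^ 5)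
      (((NN x₁ : ℝ) + a / q) / (T : ℝ) ^ 3) (((NN x₂ : ℝ) + a / q) / (T : ℝ) ^ 3)
      ((T : ℝ) ^ 2 * (uu x₁ - a / q)) ((T : ℝ) ^ 2 * (uu x₂ - a / q))
      (T * ee x₁ y₁) (T * ee x₂ y₂) = 0 := by
    rw [hG0, Int.cast_zero] at hGr
    have : (q : ℝ) ^ 2 / T ≠ 0 := by positivity
    rcases mul_eq_zero.1 hGr.symm with h | h
    · exact absurd h this
    · exact h
  obtain ⟨m, C, -, hC⟩ := alg_C (q := (q : ℤ)) (DN := NN x₁ - NN x₂) (Dk := kk x₁ - kk x₂)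
    (Ds := ss x₁ y₁ - ss x₂ y₂) (Dw := ww x₁ y₁ - ww x₂ y₂) hqz c₁.cop (by rw [← hA0, hAdef])
    (by rw [← hG0, hGdef])
  refine ⟨C, ?_, by rw [← hC]; ring, ?_⟩
  · -- C ≠ 0
    rintro rfl
    have hE : (q : ℤ) * (kk x₁ - kk x₂) - 2 * a * (NN x₁ - NN x₂) = 0 := by
      rw [mul_zero] at hC
      omega
    rcases alg_D (q := (q : ℤ)) (a := a) (N := NN x₁) (N' := NN x₂) (k := kk x₁) (k' := kk x₂)
      (s := ss x₁ y₁) (s' := ss x₂ y₂) (w := ww x₁ y₁) (w' := ww x₂ y₂) hqz c₁.cop rfl rfl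
      (by rw [← hA0, hAdef]) (by rw [← hG0, hGdef]) hE with h | h
    · apply hne
      have e1 : (x₁ : ℤ) = kk x₁ + NN x₁ ^ 2 := by unfold kk; ring
      have e2 : (x₂ : ℤ) = kk x₂ + NN x₂ ^ 2 := by unfold kk; ring
      have : (x₁ : ℤ) = x₂ := by rw [e1, e2, h.1, h.2]
      exact_mod_cast this
    · obtain ⟨hq, hs⟩ := h
      -- a = 0
      have ha : a = 0 := by
        have hp := c₁.p_abs S₁.T4
        have hq' : (q : ℝ) = 1 := by exact_mod_cast hq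
        rw [hq', div_one] at hp
        have : |a| < 1 := by
          have : |(a : ℝ)| < 1 := by linarith
          exact_mod_cast this
        exact Int.abs_lt_one_iff.1 this
      have hs0 := hs ha
      exact no_zero S₂ h₂ hs0
  · have hCr : (C : ℝ) = 6 * ((T : ℝ) / q) * Cq (1 / (T : ℝ) ^ 5)
      (((NN x₁ : ℝ) + a / q) / (T : ℝ) ^ 3) (((NN x₂ : ℝ) + a / q) / (T : ℝ) ^ 3)
      ((T : ℝ) ^ 2 * (uu x₁ - a / q)) ((T : ℝ) ^ 2 * (uu x₂ - a / q)) := by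
      have h1 : (q : ℝ) ^ 2 * C = 6 * (q * ((kk x₁ : ℝ) - kk x₂) - 2 * a * (NN x₁ - NN x₂)) := by
        exact_mod_cast hC.symm
      have h2 : (C : ℝ) =
          6 * (q * ((kk x₁ : ℝ) - kk x₂) - 2 * a * (NN x₁ - NN x₂)) / (q : ℝ) ^ 2 := by
        field_simp
        linarith
      rw [h2, kk_eq, kk_eq]
      unfold Cq
      field_simp
      ring
    rw [hCr]
    exact P.C_bound hAq hBq (Nat.cast_nonneg _) (jabs_le c₁.hj)

end Pool.Agent.Helper52.Hall
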