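import Pool.Agent.Helper52.Hall.Main

/-!
# Counting pairs `(x, y)`
-/

namespace Pool.Agent.Helper52.Hall

open Finset

variable {K X : ℝ}

/-- The condition on a pair. -/
def Good (K : ℝ) (p : ℤ × ℤ) : Prop :=
  p.1 ^ 3 ≠ p.2 ^ 2 ∧ |(p.1 : ℝ) ^ 3 - (p.2 : ℝ) ^ 2| ≤ K * √|(p.1 : ℝ)|

/-- distance of `y` to `x ^ (3 / 2)` -/
lemma near_dist {K : ℝ} {x y : ℝ} (hx : 0 < x) (hy : 0 ≤ y) (h : |x ^ 3 - y ^ 2| ≤ K * √x) :
    |y - √x ^ 3| * x ≤ K := by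
  have hs : 0 < √x := Real.sqrt_pos.2 hx
  have hsx : √x ^ 2 = x := Real.sq_sqrt hx.le
  have e1 : (y - √x ^ 3) * (y + √x ^ 3) = y ^ 2 - x ^ 3 := by
    have h6 : x ^ 3 = √x ^ 6 := by
      calc x ^ 3 = (√x ^ 2) ^ 3 := by rw [hsx]
        _ = _ := by ring
    rw [h6]
    ring
  have e2 : |y - √x ^ 3| * √x ^ 3 ≤ K * √x := by
    calc |y - √x ^ 3| * √x ^ 3 ≤ |y - √x ^ 3| * (y + √x ^ 3) := by
          gcongr
          linarith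
      _ = |(y - √x ^ 3) * (y + √x ^ 3)| := by
          rw [abs_mul, abs_of_nonneg (show (0 : ℝ) ≤ y + √x ^ 3 by positivity)]
      _ = |x ^ 3 - y ^ 2| := by rw [e1, abs_sub_comm]
      _ ≤ K * √x := h
  have : |y - √x ^ 3| * √x ^ 2 * √x ≤ K * √x := by
    calc |y - √x ^ 3| * √x ^ 2 * √x = |y - √x ^ 3| * √x ^ 3 := by ring
      _ ≤ _ := e2
  have h3 := le_of_mul_le_mul_right this hs
  rwa [hsx] at h3

/-- the map used for small `x` -/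
noncomputable def mp (p : ℤ × ℤ) : ℤ × ℤ := (p.1, p.2 - ⌊√(p.1 : ℝ) ^ 3⌋)

lemma mp_inj : Function.Injective mp := by
  rintro ⟨a, b⟩ ⟨c, d⟩ h
  simp only [mp, Prod.mk.injEq] at h
  obtain ⟨h1, h2⟩ := h
  subst h1
  rw [Prod.mk.injEq]
  exact ⟨rfl, by linarith⟩

lemma card_nonpos (hK : 1 ≤ K) (S : Finset (ℤ × ℤ))
    (hS : ∀ p ∈ S, Good K p ∧ 0 ≤ p.2 ∧ p.1 ≤ 0) : (S.card : ℝ) ≤ 4 * K ^ 2 := by
  have hK0 : 0 ≤ K := by linarith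
  have hsub : S ⊆ Icc (-⌊K⌋) 0 ×ˢ Icc 0 ⌊K⌋ := by
    intro p hp
    obtain ⟨⟨h1, h2⟩, hy, hx⟩ := hS p hp
    obtain ⟨x, y⟩ := p
    simp only at h1 h2 hy hx
    have hx' : (x : ℝ) ≤ 0 := by exact_mod_cast hx
    have hxn : x ≠ 0 := by
      rintro rfl
      simp only [Int.cast_zero, abs_zero, Real.sqrt_zero, mul_zero] at h2
      have : (y : ℝ) ^ 2 = 0 := by
        have h3 := abs_nonpos_iff.1 h2
        linarith
      have hy0 : (y : ℝ) = 0 := by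
        exact pow_eq_zero_iff (two_ne_zero) |>.1 this
      have hy0' : y = 0 := by exact_mod_cast hy0
      rw [hy0'] at h1
      exact h1 (by norm_num)
    have hx1 : x ≤ -1 := by omega
    have hx1' : (x : ℝ) ≤ -1 := by exact_mod_cast hx1
    have hab : |(x : ℝ)| = -x := abs_of_nonpos hx'
    rw [hab] at h2
    set z : ℝ := -(x : ℝ) with hz
    have hz1 : 1 ≤ z := by linarith
    have hx3 : (x : ℝ) ^ 3 = -z ^ 3 := by rw [hz]; ring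
    have h4 : |(x : ℝ) ^ 3 - (y : ℝ) ^ 2| = z ^ 3 + (y : ℝ) ^ 2 := by
      rw [hx3, abs_of_nonpos]
      · ring
      · have : 0 ≤ z ^ 3 := by positivity
        nlinarith [sq_nonneg (y : ℝ)]
    rw [h4] at h2
    have hsz : √z ≤ z := by
      rw [Real.sqrt_le_left (by linarith)]
      nlinarith
    have hKz : K * √z ≤ K * z := by gcongr
    have hz2 : z ^ 2 ≤ K := by
      have h5 : z ^ 2 * z ≤ K * z := by nlinarith [sq_nonneg (y : ℝ)]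
      exact le_of_mul_le_mul_right h5 (by linarith)
    have hzK : z ≤ K := by nlinarith
    have hy2 : (y : ℝ) ^ 2 ≤ K ^ 2 := by
      have : 0 ≤ z ^ 3 := by positivity
      have h6 : K * z ≤ K * K := by gcongr
      nlinarith
    have hyK : (y : ℝ) ≤ K := abs_le_of_sq_le_sq' hy2 hK0 |>.2
    rw [mem_product, mem_Icc, mem_Icc]
    refine ⟨⟨?_, hx⟩, hy, Int.le_floor.2 hyK⟩
    rw [neg_le]
    apply Int.le_floor.2
    push_cast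
    exact hzK
  have h1 := card_le_card hsub
  rw [card_product, Int.card_Icc, Int.card_Icc] at h1
  have hfl : 0 ≤ ⌊K⌋ := Int.floor_nonneg.2 hK0
  have hflK := Int.floor_le K
  have e1 : (((0 : ℤ) + 1 - -⌊K⌋).toNat : ℝ) = ⌊K⌋ + 1 := by
    have : (((0 : ℤ) + 1 - -⌊K⌋).toNat : ℤ) = ⌊K⌋ + 1 := by omega
    exact_mod_cast this
  have e2 : (((⌊K⌋ : ℤ) + 1 - 0).toNat : ℝ) = ⌊K⌋ + 1 := by
    have : (((⌊K⌋ : ℤ) + 1 - 0).toNat : ℤ) = ⌊K⌋ + 1 := by omega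
    exact_mod_cast this
  have h2 : (S.card : ℝ) ≤ ((⌊K⌋ : ℝ) + 1) * (⌊K⌋ + 1) := by
    rw [← e1]
    nth_rewrite 2 [e1]
    rw [← e2]
    exact_mod_cast h1
  have hfl' : (0 : ℝ) ≤ ⌊K⌋ := by exact_mod_cast hfl
  nlinarith

lemma card_small {c L : ℝ} (hc : 1 ≤ c) (hL : 1 ≤ L) (S : Finset (ℤ × ℤ))
    (hS : ∀ p ∈ S, 1 ≤ p.1 ∧ (p.1 : ℝ) ≤ L ∧ |(p.2 : ℝ) - √(p.1 : ℝ) ^ 3| ≤ c) :
    (S.card : ℝ) ≤ 4 * c * L := by
  have hmaps : Set.MapsTo mp S (Icc 1 ⌊L⌋ ×ˢ Icc (-⌊c⌋) (⌊c⌋ + 1) : Finset (ℤ × ℤ)) := by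
    intro p hp
    obtain ⟨h1, h2, h3⟩ := hS p hp
    rw [mem_coe, mem_product, mem_Icc, mem_Icc]
    unfold mp
    simp only
    have f1 := Int.floor_le (√(p.1 : ℝ) ^ 3)
    have f2 := Int.lt_floor_add_one (√(p.1 : ℝ) ^ 3)
    obtain ⟨h4, h5⟩ := abs_le.1 h3
    refine ⟨⟨h1, Int.le_floor.2 h2⟩, ?_, ?_⟩
    · rw [neg_le]
      apply Int.le_floor.2
      push_cast
      linarith
    · rw [← sub_le_iff_le_add]
      apply Int.le_floor.2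
      push_cast
      linarith
  have h1 := card_le_card_of_injOn mp hmaps (mp_inj.injOn)
  rw [card_product, Int.card_Icc, Int.card_Icc] at h1
  have hfl : 1 ≤ ⌊L⌋ := Int.le_floor.2 (by push_cast; exact hL)
  have hfc : 1 ≤ ⌊c⌋ := Int.le_floor.2 (by push_cast; exact hc)
  have hflK := Int.floor_le L
  have hfcK := Int.floor_le c
  have e1 : (((⌊L⌋ : ℤ) + 1 - 1).toNat : ℝ) = ⌊L⌋ := by
    have : (((⌊L⌋ : ℤ) + 1 - 1).toNat : ℤ) = ⌊L⌋ := by omega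
    exact_mod_cast this
  have e2 : (((⌊c⌋ : ℤ) + 1 + 1 - -⌊c⌋).toNat : ℝ) = 2 * ⌊c⌋ + 2 := by
    have : (((⌊c⌋ : ℤ) + 1 + 1 - -⌊c⌋).toNat : ℤ) = 2 * ⌊c⌋ + 2 := by omega
    exact_mod_cast this
  have h2 : (S.card : ℝ) ≤ (⌊L⌋ : ℝ) * (2 * ⌊c⌋ + 2) := by
    rw [← e1, ← e2]
    exact_mod_cast h1
  have hfl' : (1 : ℝ) ≤ ⌊L⌋ := by exact_mod_cast hfl
  have hfc' : (1 : ℝ) ≤ ⌊c⌋ := by exact_mod_cast hfc
  calc (S.card : ℝ) ≤ (⌊L⌋ : ℝ) * (2 * ⌊c⌋ + 2) := h2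
    _ ≤ L * (2 * c + 2 * c) := by
        gcongr
        linarith
    _ = _ := by ring

lemma card_big (hK : 1 ≤ K) (hX : 1 ≤ X) (S : Finset (ℤ × ℤ))
    (hS : ∀ p ∈ S, Good K p ∧ 0 ≤ p.2 ∧ (p.1 : ℝ) ≤ X ∧ 2 * K < p.1) :
    (S.card : ℝ) ≤ 263170 * K ^ 2 + 4 * (3 * 2000000 * 113 * 16883) * (K * X ^ (1 / 3 : ℝ)) := by
  classical
  have hx0 : ∀ p ∈ S, (0 : ℝ) < p.1 := fun p hp => by
    have := (hS p hp).2.2.2
    linarith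
  have hx0' : ∀ p ∈ S, 0 ≤ p.1 := fun p hp => by
    have := hx0 p hp
    exact_mod_cast this.le
  have hd : ∀ p ∈ S, |(p.2 : ℝ) - √(p.1 : ℝ) ^ 3| < 1 / 2 := by
    intro p hp
    obtain ⟨⟨h1, h2⟩, hy, hx, hxK⟩ := hS p hp
    have hp0 := hx0 p hp
    rw [abs_of_pos hp0] at h2
    have hy' : (0 : ℝ) ≤ p.2 := by exact_mod_cast hy
    have h3 := near_dist hp0 hy' h2
    by_contra hcon
    push Not at hcon
    have : 1 / 2 * (p.1 : ℝ) ≤ |(p.2 : ℝ) - √(p.1 : ℝ) ^ 3| * p.1 := by gcongr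
    linarith
  have hinj : Set.InjOn (fun p : ℤ × ℤ => p.1.toNat) S := by
    intro p hp p' hp' h
    simp only at h
    have h1 : p.1 = p'.1 := by
      have := hx0' p hp
      have := hx0' p' hp'
      omega
    have h2 := hd p hp
    have h3 := hd p' hp'
    rw [← h1] at h3
    have h4 : |(p.2 : ℝ) - p'.2| < 1 := by
      calc |(p.2 : ℝ) - p'.2| = |((p.2 : ℝ) - √(p.1 : ℝ) ^ 3) - ((p'.2 : ℝ) - √(p.1 : ℝ) ^ 3)| := by
            congr 1; ring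
        _ ≤ |(p.2 : ℝ) - √(p.1 : ℝ) ^ 3| + |(p'.2 : ℝ) - √(p.1 : ℝ) ^ 3| := abs_sub _ _
        _ < 1 := by linarith
    have h5 : |p.2 - p'.2| < 1 := by exact_mod_cast h4
    have h6 := Int.abs_lt_one_iff.1 h5
    exact Prod.ext h1 (by linarith)
  rw [← card_image_of_injOn hinj]
  apply main hK hX
  intro x hx
  obtain ⟨p, hp, rfl⟩ := mem_image.1 hx
  obtain ⟨⟨h1, h2⟩, hy, hxX, hxK⟩ := hS p hp
  have hp0 := hx0' p hp
  have e1 : ((p.1.toNat : ℕ) : ℤ) = p.1 := Int.toNat_of_nonneg hp0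
  have e2 : ((p.1.toNat : ℕ) : ℝ) = p.1 := by exact_mod_cast e1
  refine ⟨by rw [e2]; exact hxX, p.2, hy, ?_, ?_⟩
  · rw [e1]; exact h1
  · rw [e2]
    rw [abs_of_pos (hx0 p hp)] at h2
    exact h2

lemma card_nonneg (hK : 1 ≤ K) (hX : 1 ≤ X) (S : Finset (ℤ × ℤ))
    (hS : ∀ p ∈ S, Good K p ∧ |(p.1 : ℝ)| ≤ X ∧ 0 ≤ p.2) :
    (S.card : ℝ) ≤ 263182 * K ^ 2 + 4 * (3 * 2000000 * 113 * 16883) * (K * X ^ (1 / 3 : ℝ)) := by
  classical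
  rw [← card_filter_add_card_filter_not (fun p : ℤ × ℤ => p.1 ≤ 0)]
  rw [← card_filter_add_card_filter_not (s := S.filter (fun p : ℤ × ℤ => ¬ p.1 ≤ 0))
    (fun p : ℤ × ℤ => (p.1 : ℝ) ≤ 2 * K)]
  push_cast
  have h1 : (((S.filter (fun p : ℤ × ℤ => p.1 ≤ 0)).card : ℕ) : ℝ) ≤ 4 * K ^ 2 := by
    apply card_nonpos hK
    intro p hp
    obtain ⟨hpS, hp0⟩ := mem_filter.1 hp
    exact ⟨(hS p hpS).1, (hS p hpS).2.2, hp0⟩
  have h2 : ((((S.filter (fun p : ℤ × ℤ => ¬ p.1 ≤ 0)).filter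
      (fun p : ℤ × ℤ => (p.1 : ℝ) ≤ 2 * K)).card : ℕ) : ℝ) ≤ 4 * K * (2 * K) := by
    apply card_small hK (by linarith)
    intro p hp
    obtain ⟨hp1, hp2⟩ := mem_filter.1 hp
    obtain ⟨hpS, hp0⟩ := mem_filter.1 hp1
    have hx1 : 1 ≤ p.1 := by omega
    have hx1' : (1 : ℝ) ≤ p.1 := by exact_mod_cast hx1
    refine ⟨hx1, hp2, ?_⟩
    obtain ⟨⟨g1, g2⟩, -, hy⟩ := hS p hpS
    have hx0 : (0 : ℝ) < (p.1 : ℝ) := by linarith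
    rw [abs_of_pos hx0] at g2
    have hy' : (0 : ℝ) ≤ p.2 := by exact_mod_cast hy
    have h3 := near_dist hx0 hy' g2
    calc |(p.2 : ℝ) - √(p.1 : ℝ) ^ 3| = |(p.2 : ℝ) - √(p.1 : ℝ) ^ 3| * 1 := by ring
      _ ≤ |(p.2 : ℝ) - √(p.1 : ℝ) ^ 3| * p.1 := by gcongr
      _ ≤ K := h3
  have h3 : ((((S.filter (fun p : ℤ × ℤ => ¬ p.1 ≤ 0)).filter
      (fun p : ℤ × ℤ => ¬ (p.1 : ℝ) ≤ 2 * K)).card : ℕ) : ℝ) ≤
      263170 * K ^ 2 + 4 * (3 * 2000000 * 113 * 16883) * (K * X ^ (1 / 3 : ℝ)) := by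
    apply card_big hK hX
    intro p hp
    obtain ⟨hp1, hp2⟩ := mem_filter.1 hp
    obtain ⟨hpS, hp0⟩ := mem_filter.1 hp1
    obtain ⟨g, hx, hy⟩ := hS p hpS
    push Not at hp2
    exact ⟨g, hy, (le_abs_self _).trans hx, hp2⟩
  linarith

/-- Counting pairs. -/
theorem pairs : ∃ C : ℝ, ∀ K X : ℝ, 1 ≤ K → 1 ≤ X →
    {p : ℤ × ℤ | |(p.1 : ℝ)| ≤ X ∧ p.1 ^ 3 ≠ p.2 ^ 2 ∧
      |(p.1 : ℝ) ^ 3 - (p.2 : ℝ) ^ 2| ≤ K * √|(p.1 : ℝ)|}.Finite ∧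
    ({p : ℤ × ℤ | |(p.1 : ℝ)| ≤ X ∧ p.1 ^ 3 ≠ p.2 ^ 2 ∧
      |(p.1 : ℝ) ^ 3 - (p.2 : ℝ) ^ 2| ≤ K * √|(p.1 : ℝ)|}.ncard : ℝ) ≤
      C * (K ^ 2 + K * X ^ (1 / 3 : ℝ)) := by
  classical
  refine ⟨8 * (3 * 2000000 * 113 * 16883), fun K X hK hX => ?_⟩
  set A := {p : ℤ × ℤ | |(p.1 : ℝ)| ≤ X ∧ p.1 ^ 3 ≠ p.2 ^ 2 ∧
      |(p.1 : ℝ) ^ 3 - (p.2 : ℝ) ^ 2| ≤ K * √|(p.1 : ℝ)|} with hA
  have hfin : A.Finite := by
    have hsub : A ⊆ (Icc (-⌊X⌋) ⌊X⌋ ×ˢ Icc (-⌊X ^ 3 + K * √X⌋) ⌊X ^ 3 + K * √X⌋ :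
        Finset (ℤ × ℤ)) := by
      intro p hp
      obtain ⟨h1, -, h3⟩ := hp
      have h2 : K * √|(p.1 : ℝ)| ≤ K * √X := by gcongr
      have h4 : |(p.1 : ℝ) ^ 3| ≤ X ^ 3 := by
        rw [abs_pow]
        gcongr
      have h5 : (p.2 : ℝ) ^ 2 ≤ X ^ 3 + K * √X := by
        have e1 := (abs_le.1 (h3.trans h2)).1
        have e2 := (abs_le.1 h4).2
        linarith
      have h6 : |(p.2 : ℝ)| ≤ X ^ 3 + K * √X := by
        have : |p.2| ≤ p.2 ^ 2 := by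
          rw [← sq_abs]
          rcases (abs_nonneg p.2).eq_or_lt with h | h
          · rw [← h]; norm_num
          · nlinarith
        have : |(p.2 : ℝ)| ≤ (p.2 : ℝ) ^ 2 := by exact_mod_cast this
        linarith
      rw [mem_coe, mem_product, mem_Icc, mem_Icc]
      obtain ⟨a1, a2⟩ := abs_le.1 h1
      obtain ⟨b1, b2⟩ := abs_le.1 h6
      refine ⟨⟨?_, Int.le_floor.2 a2⟩, ?_, Int.le_floor.2 b2⟩
      · rw [neg_le]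
        apply Int.le_floor.2
        push_cast
        linarith
      · rw [neg_le]
        apply Int.le_floor.2
        push_cast
        linarith
    exact (Finset.finite_toSet _).subset hsub
  refine ⟨hfin, ?_⟩
  rw [Set.ncard_eq_toFinset_card A hfin]
  set S := hfin.toFinset with hS
  have hmem : ∀ p ∈ S, Good K p ∧ |(p.1 : ℝ)| ≤ X := by
    intro p hp
    rw [hS, Set.Finite.mem_toFinset] at hp
    exact ⟨⟨hp.2.1, hp.2.2⟩, hp.1⟩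
  rw [← card_filter_add_card_filter_not (s := S) (fun p : ℤ × ℤ => 0 ≤ p.2)]
  push_cast
  have h1 := card_nonneg hK hX (S.filter (fun p : ℤ × ℤ => 0 ≤ p.2)) (by
    intro p hp
    obtain ⟨hpS, hp0⟩ := mem_filter.1 hp
    exact ⟨(hmem p hpS).1, (hmem p hpS).2, hp0⟩)
  have h2 : (((S.filter (fun p : ℤ × ℤ => ¬ 0 ≤ p.2)).card : ℕ) : ℝ) ≤
      263182 * K ^ 2 + 4 * (3 * 2000000 * 113 * 16883) * (K * X ^ (1 / 3 : ℝ)) := by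
    have hinj : Set.InjOn (fun p : ℤ × ℤ => (p.1, -p.2))
        (S.filter (fun p : ℤ × ℤ => ¬ 0 ≤ p.2)) := by
      rintro ⟨a, b⟩ _ ⟨c, d⟩ _ h
      simp only [Prod.mk.injEq, neg_inj] at h
      rw [Prod.mk.injEq]
      exact h
    rw [← card_image_of_injOn hinj]
    apply card_nonneg hK hX
    intro p hp
    obtain ⟨r, hr, rfl⟩ := mem_image.1 hp
    obtain ⟨hrS, hr0⟩ := mem_filter.1 hr
    obtain ⟨⟨g1, g2⟩, g3⟩ := hmem r hrS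
    refine ⟨⟨?_, ?_⟩, g3, ?_⟩
    · simp only [neg_sq]; exact g1
    · simp only [Int.cast_neg, neg_sq]; exact g2
    · simp only
      omega
  have hK2 : 0 ≤ K ^ 2 := by positivity
  linarith

end Pool.Agent.Helper52.Hall
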