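import Pool.Agent.Helper52.Hall.Count

/-!
# All near-solutions at one scale
-/

namespace Pool.Agent.Helper52.Hall

open Finset

variable {K : ℝ} {x : ℕ} {y : ℤ} {T : ℕ}

lemma Scale.ee_sq (S : Scale K T x) (h : IsNear K x y) : |ee x y| * √(x : ℝ) ^ 2 ≤ K := by
  have h64 := S.T64
  have hN := S.Nl'
  have hu := abs_le.1 (uu_abs x)
  have ht0 : 0 < √(x : ℝ) := by rw [sqrt_eq]; linarith
  have hy : (0 : ℝ) ≤ y := by exact_mod_cast h.y0
  have e1 : ee x y * (y + √(x : ℝ) ^ 3) = (y : ℝ) ^ 2 - (x : ℝ) ^ 3 := by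
    unfold ee
    have : (x : ℝ) = √(x : ℝ) ^ 2 := (Real.sq_sqrt (Nat.cast_nonneg x)).symm
    have h6 : (x : ℝ) ^ 3 = √(x : ℝ) ^ 6 := by
      calc (x : ℝ) ^ 3 = (√(x : ℝ) ^ 2) ^ 3 := by rw [← this]
        _ = _ := by ring
    rw [h6]
    ring
  have e2 : |ee x y| * √(x : ℝ) ^ 3 ≤ K * √(x : ℝ) := by
    calc |ee x y| * √(x : ℝ) ^ 3 ≤ |ee x y| * (y + √(x : ℝ) ^ 3) := by
          gcongr
          linarith
      _ = |ee x y * (y + √(x : ℝ) ^ 3)| := by
          rw [abs_mul, abs_of_nonneg (show (0 : ℝ) ≤ y + √(x : ℝ) ^ 3 by positivity)]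
      _ = |(x : ℝ) ^ 3 - (y : ℝ) ^ 2| := by rw [e1, abs_sub_comm]
      _ ≤ K * √(x : ℝ) := h.le
  have : |ee x y| * √(x : ℝ) ^ 2 * √(x : ℝ) ≤ K * √(x : ℝ) := by
    calc |ee x y| * √(x : ℝ) ^ 2 * √(x : ℝ) = |ee x y| * √(x : ℝ) ^ 3 := by ring
      _ ≤ _ := e2
  exact le_of_mul_le_mul_right this ht0

/-- range of the index `i` -/
lemma Scale.omega_abs (S : Scale K T x) (h : IsNear K x y) {p : ℝ} (hp : |p| ≤ 3 / 4) :
    |8192 * ((T : ℝ) ^ 3 * ((NN x + p) * ee x y))| ≤ 8440 * K := by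
  have h64 := S.T64
  have hN := S.Nl'
  have hu := abs_le.1 (uu_abs x)
  have hp' := abs_le.1 hp
  have hsq := S.ee_sq h
  have hx : √(x : ℝ) = NN x + uu x := sqrt_eq x
  have hN64 : (64 : ℝ) ≤ NN x := h64.trans hN
  have h1 : 127 / 128 * (NN x : ℝ) ≤ √(x : ℝ) := by rw [hx]; linarith
  have h2 : (127 / 128 * (NN x : ℝ)) ^ 2 ≤ √(x : ℝ) ^ 2 := by gcongr
  have hT3 : (0 : ℝ) < (T : ℝ) ^ 3 := by linarith
  have h3 : (T : ℝ) ^ 3 * (NN x + p) ≤ 103 / 100 * √(x : ℝ) ^ 2 := by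
    calc (T : ℝ) ^ 3 * (NN x + p) ≤ NN x * (NN x + 3 / 4) := by
          have : (0 : ℝ) ≤ NN x + p := by linarith
          gcongr
          linarith
      _ ≤ NN x * (259 / 256 * NN x) := by gcongr; linarith
      _ ≤ 103 / 100 * (127 / 128 * (NN x : ℝ)) ^ 2 := by nlinarith [sq_nonneg (NN x : ℝ)]
      _ ≤ _ := by gcongr
  have h0 : 0 ≤ (T : ℝ) ^ 3 * (NN x + p) := mul_nonneg hT3.le (by linarith)
  have h4 : |8192 * ((T : ℝ) ^ 3 * ((NN x + p) * ee x y))| =
      8192 * (((T : ℝ) ^ 3 * (NN x + p)) * |ee x y|) := by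
    rw [← mul_assoc ((T : ℝ) ^ 3), abs_mul, abs_mul, abs_of_nonneg h0]
    norm_num
  rw [h4]
  have hK := S.K0
  calc 8192 * (((T : ℝ) ^ 3 * (NN x + p)) * |ee x y|) ≤
        8192 * ((103 / 100 * √(x : ℝ) ^ 2) * |ee x y|) := by gcongr
    _ = 8192 * (103 / 100) * (|ee x y| * √(x : ℝ) ^ 2) := by ring
    _ ≤ 8192 * (103 / 100) * K := by gcongr
    _ ≤ 8440 * K := by nlinarith


lemma floor_mem {c s : ℝ} {n : ℤ} (hs : |s| ≤ c) (h : ⌊s⌋ = n) {M : ℕ} (hM : c ≤ M) :
    n ∈ Icc (-((M : ℕ) : ℤ)) M := by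
  have h1 := Int.floor_le s
  have h2 := Int.lt_floor_add_one s
  rw [h] at h1 h2
  obtain ⟨h3, h4⟩ := abs_le.1 hs
  rw [mem_Icc]
  constructor
  · have : -(M : ℝ) - 1 < n := by linarith
    have : -(M : ℤ) - 1 < n := by exact_mod_cast this
    omega
  · have : (n : ℝ) < M + 1 := by linarith
    have : n < (M : ℤ) + 1 := by exact_mod_cast this
    omega

/-- Every near-solution lies in a cell. -/
lemma exists_cell (S : Scale K T x) (y : ℤ) : ∃ q a j b i, Cell T q a j b i x y := by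
  have hT : 0 < T := by have := S.T4; omega
  obtain ⟨r, hr, hrT⟩ := Real.exists_rat_abs_sub_le_and_den_le (uu x) hT
  refine ⟨r.den, r.num, _, _, _, ⟨r.den_pos, hrT, ?_, ?_, rfl, rfl, rfl⟩⟩
  · rw [Int.isCoprime_iff_gcd_eq_one]
    exact r.reduced
  · have h1 : ((r.num : ℝ) / (r.den : ℝ)) = (r : ℝ) := by
      exact_mod_cast (Rat.num_div_den r)
    rw [h1]
    refine hr.trans ?_
    have hd : (0 : ℝ) < r.den := by exact_mod_cast r.den_pos
    have hT' : (0 : ℝ) < T := by exact_mod_cast hT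
    apply one_div_le_one_div_of_le (by positivity)
    nlinarith

/-- The number of near-solutions at scale `T`. -/
lemma scale_count (hK : 1 ≤ K) (yy : ℕ → ℤ) (S : Finset ℕ)
    (hS : ∀ x ∈ S, Scale K T x ∧ IsNear K x (yy x)) :
    (S.card : ℝ) ≤ 3 * 2000000 * 113 * 16883 * (K * (T : ℝ) ^ 2) := by
  classical
  rcases S.eq_empty_or_nonempty with rfl | ⟨x₀, hx₀⟩
  · rw [card_empty, Nat.cast_zero]
    positivity
  have hT4 : 4 ≤ T := (hS x₀ hx₀).1.T4
  have hT0 : (0 : ℝ) < T := by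
    have : 0 < T := by omega
    exact_mod_cast this
  set M : ℕ := ⌊8441 * K⌋₊ with hM
  have hM1 : (M : ℝ) ≤ 8441 * K := Nat.floor_le (by linarith)
  have hM2 : 8441 * K < M + 1 := Nat.lt_floor_add_one _
  have hM3 : 2 * (M : ℝ) + 1 ≤ 16883 * K := by linarith
  -- level 4 : fixed `q, a, j`
  have level4 : ∀ (q : ℕ) (a j : ℤ), 1 ≤ q → q ≤ T →
      (((S.filter (fun x => ∃ b i, Cell T q a j b i x (yy x))).card : ℕ) : ℝ) ≤
        113 * 16883 * K * fb T q j := by
    intro q a j hq hqT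
    have hfb : 0 ≤ fb T q j := by unfold fb; positivity
    have h := card_le_sum (S := S.filter (fun x => ∃ b i, Cell T q a j b i x (yy x)))
      (t := Icc (16 : ℤ) 128 ×ˢ Icc (-(M : ℤ)) M)
      (f := fun bi => S.filter (fun x => Cell T q a j bi.1 bi.2 x (yy x)))
      (F := fun _ => fb T q j) ?_ ?_
    · refine h.trans ?_
      rw [sum_const, card_product, Int.card_Icc, Int.card_Icc]
      have e1 : ((128 : ℤ) + 1 - 16).toNat = 113 := rfl
      have e2 : ((M : ℤ) + 1 - -(M : ℤ)).toNat = 2 * M + 1 := by omega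
      rw [e1, e2, nsmul_eq_mul]
      push_cast
      have e3 : 113 * (2 * (M : ℝ) + 1) * fb T q j ≤ 113 * (16883 * K) * fb T q j :=
        mul_le_mul_of_nonneg_right (mul_le_mul_of_nonneg_left hM3 (by norm_num)) hfb
      have e4 : 113 * (16883 * K) * fb T q j = 113 * 16883 * K * fb T q j := by ring
      linarith
    · intro x hx
      obtain ⟨hxS, b, i, hc⟩ := mem_filter.1 hx
      obtain ⟨hs, hn⟩ := hS x hxS
      refine ⟨(b, i), ?_, mem_filter.2 ⟨hxS, hc⟩⟩
      rw [mem_product]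
      constructor
      · have h1 := hs.Nl'
        have h2 := hs.Nu'
        have h64 := hs.T64
        have hT3 : (0 : ℝ) < (T : ℝ) ^ 3 := by linarith
        have g1 : (1 : ℝ) ≤ (NN x : ℝ) / (T : ℝ) ^ 3 := by
          rw [le_div_iff₀ hT3]; linarith
        have g2 : (NN x : ℝ) / (T : ℝ) ^ 3 < 8 := by
          rw [div_lt_iff₀ hT3]; linarith
        have hb := hc.hb
        simp only [mem_Icc]
        constructor
        · rw [← hb]
          apply Int.le_floor.2
          push_cast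
          linarith
        · have h3 := Int.floor_le (16 * ((NN x : ℝ) / (T : ℝ) ^ 3))
          rw [hb] at h3
          have : (b : ℝ) ≤ 128 := by linarith
          exact_mod_cast this
      · have hMM : 8440 * K ≤ (M : ℝ) := by linarith
        have ho : |8192 * ((T : ℝ) ^ 3 * ((NN x + (a : ℝ) / q) * ee x (yy x)))| ≤ 8440 * K :=
          hs.omega_abs hn (hc.p_abs hs.T4)
        have hi := hc.hi
        clear_value M
        exact floor_mem ho hi hMM
    · intro bi _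
      apply fibre yy
      intro x hx
      obtain ⟨hxS, hc⟩ := mem_filter.1 hx
      exact ⟨(hS x hxS).1, (hS x hxS).2, hc⟩
  -- level 3 : fixed `q, a`
  have level3 : ∀ (q : ℕ) (a : ℤ), 1 ≤ q → q ≤ T →
      (((S.filter (fun x => ∃ j b i, Cell T q a j b i x (yy x))).card : ℕ) : ℝ) ≤
        113 * 16883 * K * (2000000 * ((T : ℝ) / q)) := by
    intro q a hq hqT
    have hq0 : (0 : ℝ) < q := by exact_mod_cast hq
    have hTq : (1 : ℝ) ≤ (T : ℝ) / q := by
      rw [le_div_iff₀ hq0, one_mul]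
      exact_mod_cast hqT
    set J : ℕ := ⌊4097 * ((T : ℝ) / q)⌋₊ with hJ
    have hJ1 : (J : ℝ) ≤ 4097 * ((T : ℝ) / q) := Nat.floor_le (by positivity)
    have hJ2 : 4097 * ((T : ℝ) / q) < J + 1 := Nat.lt_floor_add_one _
    have h := card_le_sum (S := S.filter (fun x => ∃ j b i, Cell T q a j b i x (yy x)))
      (t := Icc (-(J : ℤ)) J)
      (f := fun j => S.filter (fun x => ∃ b i, Cell T q a j b i x (yy x)))
      (F := fun j => 113 * 16883 * K * fb T q j) ?_ ?_
    · refine h.trans ?_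
      rw [← mul_sum]
      have := fb_sum (J := J) hq hqT (by linarith)
      gcongr
    · intro x hx
      obtain ⟨hxS, j, b, i, hc⟩ := mem_filter.1 hx
      refine ⟨j, ?_, mem_filter.2 ⟨hxS, b, i, hc⟩⟩
      have hj : |4096 * ((T : ℝ) ^ 2 * (uu x - a / q))| ≤ 4096 * ((T : ℝ) / q) := by
        have hn := hc.near
        rw [abs_mul, abs_mul, abs_of_nonneg (by positivity : (0 : ℝ) ≤ (T : ℝ) ^ 2),
          abs_of_nonneg (by norm_num : (0 : ℝ) ≤ 4096)]
        calc 4096 * ((T : ℝ) ^ 2 * |uu x - a / q|) ≤ 4096 * ((T : ℝ) ^ 2 * (1 / (q * T))) := by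
              gcongr
          _ = _ := by field_simp
      exact floor_mem hj hc.hj (by linarith)
    · intro j _
      exact level4 q a j hq hqT
  -- level 2 : fixed `q`
  have level2 : ∀ q : ℕ, 1 ≤ q → q ≤ T →
      (((S.filter (fun x => ∃ a j b i, Cell T q a j b i x (yy x))).card : ℕ) : ℝ) ≤
        3 * 2000000 * 113 * 16883 * K * T := by
    intro q hq hqT
    have hq0 : (0 : ℝ) < q := by exact_mod_cast hq
    have hq1 : (1 : ℝ) ≤ q := by exact_mod_cast hq
    have h := card_le_sum (S := S.filter (fun x => ∃ a j b i, Cell T q a j b i x (yy x)))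
      (t := Icc (-(q : ℤ)) q)
      (f := fun a => S.filter (fun x => ∃ j b i, Cell T q a j b i x (yy x)))
      (F := fun _ => 113 * 16883 * K * (2000000 * ((T : ℝ) / q))) ?_ ?_
    · refine h.trans ?_
      rw [sum_const, Int.card_Icc]
      have e2 : ((q : ℤ) + 1 - -(q : ℤ)).toNat = 2 * q + 1 := by omega
      rw [e2, nsmul_eq_mul]
      push_cast
      calc (2 * (q : ℝ) + 1) * (113 * 16883 * K * (2000000 * ((T : ℝ) / q))) ≤
            (3 * (q : ℝ)) * (113 * 16883 * K * (2000000 * ((T : ℝ) / q))) := by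
            gcongr
            linarith
        _ = _ := by field_simp
    · intro x hx
      obtain ⟨hxS, a, j, b, i, hc⟩ := mem_filter.1 hx
      refine ⟨a, ?_, mem_filter.2 ⟨hxS, j, b, i, hc⟩⟩
      have hp := hc.p_abs hT4
      rw [abs_div, div_le_iff₀ (by positivity)] at hp
      have e1 : |(q : ℝ)| = q := abs_of_pos hq0
      rw [e1] at hp
      have h2 : |(a : ℝ)| ≤ q := by linarith
      have h3 : |a| ≤ (q : ℤ) := by exact_mod_cast h2
      rw [mem_Icc]
      exact abs_le.1 h3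
    · intro a _
      exact level3 q a hq hqT
  -- level 1
  have h := card_le_sum (S := S) (t := Icc 1 T)
      (f := fun q => S.filter (fun x => ∃ a j b i, Cell T q a j b i x (yy x)))
      (F := fun _ => 3 * 2000000 * 113 * 16883 * K * T) ?_ ?_
  · refine h.trans ?_
    rw [sum_const, Nat.card_Icc, nsmul_eq_mul]
    have : T + 1 - 1 = T := by omega
    rw [this]
    apply le_of_eq
    ring
  · intro x hx
    obtain ⟨q, a, j, b, i, hc⟩ := exists_cell (hS x hx).1 (yy x)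
    exact ⟨q, mem_Icc.2 ⟨hc.q1, hc.qT⟩, mem_filter.2 ⟨hx, a, j, b, i, hc⟩⟩
  · intro q hq
    rw [mem_Icc] at hq
    exact level2 q hq.1 hq.2

end Pool.Agent.Helper52.Hall
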